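import Pool.Agent.H95.PI.Stm

/-!
# PI-ALOW: the lower bound, exceptional integers in short intervals
-/

set_option autoImplicit false
set_option linter.unusedSectionVars false

open MeasureTheory Filter Set
open scoped ENNReal Topology

namespace Pool.Agent.H95.PI.T.ALOW

open Pool.Agent.R528.RM Pool.Agent.N9.AD

lemma log_top : Tendsto (fun n : ℕ => Real.log (n : ℝ)) atTop atTop :=
  Real.tendsto_log_atTop.comp tendsto_natCast_atTop_atTop

lemma ev_log (C : ℝ) (k : ℕ) (s : ℝ) (hs : 0 < s) :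
    ∀ᶠ Y : ℕ in atTop, C * Real.log Y ^ k ≤ (Y : ℝ) ^ s := by
  have h := (isLittleO_log_rpow_rpow_atTop (k : ℝ) hs).comp_tendsto tendsto_natCast_atTop_atTop
  have h2 := h.def (c := 1 / (|C| + 1)) (by positivity)
  filter_upwards [h2, eventually_ge_atTop 1] with Y hY hY1
  have hlog : 0 ≤ Real.log (Y : ℝ) := Real.log_natCast_nonneg Y
  simp only [Function.comp_apply, Real.norm_eq_abs, Real.rpow_natCast] at hY
  rw [abs_of_nonneg (pow_nonneg hlog k), abs_of_nonneg (Real.rpow_nonneg (Nat.cast_nonneg Y) s)] at hY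
  have h3 : 0 ≤ (Y : ℝ) ^ s := Real.rpow_nonneg (Nat.cast_nonneg Y) s
  calc C * Real.log Y ^ k ≤ |C| * Real.log Y ^ k :=
        mul_le_mul_of_nonneg_right (le_abs_self C) (pow_nonneg hlog k)
    _ ≤ |C| * (1 / (|C| + 1) * (Y : ℝ) ^ s) := mul_le_mul_of_nonneg_left hY (abs_nonneg C)
    _ = |C| / (|C| + 1) * (Y : ℝ) ^ s := by ring
    _ ≤ 1 * (Y : ℝ) ^ s := by
        refine mul_le_mul_of_nonneg_right ?_ h3
        rw [div_le_one (by positivity)]
        linarith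
    _ = _ := one_mul _

lemma rho_small (W : ℕ) (η : ℝ) (hη : 0 < η) : ∀ᶠ m : ℕ in atTop, rhoW W m ≤ η := by
  have h1 : Tendsto (fun m : ℕ => ((W : ℝ) / Nat.totient W) / Real.log m) atTop (𝓝 0) :=
    tendsto_const_nhds.div_atTop log_top
  filter_upwards [h1.eventually (ge_mem_nhds hη)] with m hm
  unfold rhoW
  split_ifs
  · exact (min_le_right _ _).trans hm
  · exact hη.le

lemma log_two_mul (Y : ℕ) (hY : 3 ≤ Y) : 1 ≤ Real.log (Y : ℝ) ∧
    Real.log (2 * (Y : ℝ)) ≤ 2 * Real.log Y ∧ Real.log (2 * (Y : ℝ)) ≤ Real.log Y + 1 ∧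
    0 ≤ Real.log (2 * (Y : ℝ)) := by
  have h3 : (3 : ℝ) ≤ Y := by exact_mod_cast hY
  have h1 : 1 ≤ Real.log (Y : ℝ) := by
    rw [Real.le_log_iff_exp_le (by linarith)]
    have := Real.exp_one_lt_d9
    linarith
  have h2 : Real.log (2 * (Y : ℝ)) = Real.log 2 + Real.log Y :=
    Real.log_mul (by norm_num) (by linarith)
  have h4 : Real.log 2 ≤ 1 := by
    have := Real.log_two_lt_d9
    linarith
  have h5 : 0 ≤ Real.log (2 : ℝ) := Real.log_nonneg (by norm_num)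
  refine ⟨h1, ?_, ?_, ?_⟩ <;> rw [h2] <;> linarith

theorem main (hPL : S_PLOW) (hCUT : S_CUT) (hCRK : S_CRK) : S_ALOW := by
  classical
  intro Ω m0 μ _ ℱ A U W σ hA hU hW hσ hprof hlaw r κ ε hσr hκ hε hle
  set a : ℝ := κ * σ r with ha
  have ha0 : 0 ≤ a := mul_nonneg hκ hσr
  have hε1 : ε ≤ 1 := by linarith
  set θ : ℝ := ε / (64 * (a + 1)) with hθ
  have hθ0 : 0 < θ := by positivity
  have hθa : 4 * θ * (a + 1) = ε / 16 := by
    rw [hθ]
    field_simp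
    ring
  have hθ64 : θ ≤ 1 / 64 := by
    have : 4 * θ ≤ 4 * θ * (a + 1) := by nlinarith
    linarith
  have hcoef : (1 + 2 * θ) * (1 + θ) * (a + ε / 16) ≤ a + ε / 8 := by
    have h1 : (1 + 2 * θ) * (1 + θ) ≤ 1 + 4 * θ := by nlinarith
    have h2 : 0 ≤ a + ε / 16 := by positivity
    calc (1 + 2 * θ) * (1 + θ) * (a + ε / 16) ≤ (1 + 4 * θ) * (a + ε / 16) :=
          mul_le_mul_of_nonneg_right h1 h2
      _ = a + ε / 16 + 4 * θ * (a + ε / 16) := by ring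
      _ ≤ a + ε / 16 + 4 * θ * (a + 1) := by
          have : a + ε / 16 ≤ a + 1 := by linarith
          have h3 : 0 ≤ 4 * θ := by positivity
          linarith [mul_le_mul_of_nonneg_left this h3]
      _ = a + ε / 8 := by rw [hθa]; ring
  -- the parameters
  set K : ℕ → ℝ := fun Y => κ * Real.log (2 * (Y : ℝ)) ^ 2 with hK
  set L : ℕ → ℕ := fun Y => ⌊(Y : ℝ) ^ (a + ε / 2)⌋₊ with hL
  set M : ℕ → ℕ := fun Y => 2 * Y / 3 with hM
  set c : ℕ → ℝ := fun Y => (a + ε / 16) * Real.log Y with hc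
  set J : ℕ → ℕ := fun Y => ⌊(Y : ℝ) ^ (a + 3 * ε / 8)⌋₊ with hJ
  have hK0 : ∀ Y, 0 ≤ K Y := fun Y => mul_nonneg hκ (sq_nonneg _)
  have hLle : ∀ Y : ℕ, (L Y : ℝ) ≤ (Y : ℝ) ^ (a + ε / 2) := fun Y =>
    Nat.floor_le (Real.rpow_nonneg (Nat.cast_nonneg Y) _)
  -- the size of `L`
  have evL : ∀ᶠ Y : ℕ in atTop, 4 * L Y ≤ Y := by
    have h1 : Tendsto (fun Y : ℕ => (Y : ℝ) ^ (-(1 - (a + ε / 2)))) atTop (𝓝 0) :=
      (tendsto_rpow_neg_atTop (by linarith)).comp tendsto_natCast_atTop_atTop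
    filter_upwards [h1.eventually (ge_mem_nhds (show (0 : ℝ) < 1 / 4 by norm_num)),
      eventually_ge_atTop 1] with Y hY hY1
    have hYp : (0 : ℝ) < Y := by exact_mod_cast hY1
    have h2 : (Y : ℝ) ^ (a + ε / 2) = Y * (Y : ℝ) ^ (-(1 - (a + ε / 2))) := by
      rw [← Real.rpow_one_add' hYp.le (by linarith)]
      congr 1
      ring
    have h3 : (4 * L Y : ℝ) ≤ Y := by
      have := hLle Y
      rw [h2] at this
      nlinarith
    exact_mod_cast h3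
  have evJ : ∀ᶠ Y : ℕ in atTop, (W : ℝ) * (J Y * ((K Y) ^ 2 + 1) + 1) ≤ L Y := by
    filter_upwards [ev_log (16 * W * κ ^ 2 + 2 * W + 1) 4 (ε / 8) (by positivity),
      eventually_ge_atTop 3] with Y hY hY3
    obtain ⟨l1, l2, l3, l4⟩ := log_two_mul Y hY3
    have hY1 : (1 : ℝ) ≤ Y := by
      have : 1 ≤ Y := by omega
      exact_mod_cast this
    have hYp : (0 : ℝ) < Y := by linarith
    set p : ℝ := (Y : ℝ) ^ (a + 3 * ε / 8) with hp
    have hp1 : 1 ≤ p := Real.one_le_rpow hY1 (by positivity)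
    have hJp : (J Y : ℝ) ≤ p := Nat.floor_le (by positivity)
    have hLp : p * (Y : ℝ) ^ (ε / 8) - 1 ≤ L Y := by
      have h1 : (Y : ℝ) ^ (a + ε / 2) < L Y + 1 := Nat.lt_floor_add_one _
      have h2 : (Y : ℝ) ^ (a + ε / 2) = p * (Y : ℝ) ^ (ε / 8) := by
        rw [hp, ← Real.rpow_add hYp]
        congr 1
        ring
      linarith
    have hK2 : (K Y) ^ 2 ≤ 16 * κ ^ 2 * Real.log Y ^ 4 := by
      have h5 : Real.log (2 * (Y : ℝ)) ^ 2 ≤ (2 * Real.log Y) ^ 2 := pow_le_pow_left₀ l4 l2 2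
      have h6 : K Y ≤ κ * (2 * Real.log Y) ^ 2 := mul_le_mul_of_nonneg_left h5 hκ
      calc (K Y) ^ 2 ≤ (κ * (2 * Real.log Y) ^ 2) ^ 2 := pow_le_pow_left₀ (hK0 Y) h6 2
        _ = _ := by ring
    have hl4 : 1 ≤ Real.log (Y : ℝ) ^ 4 := one_le_pow₀ l1
    have hW0 : (0 : ℝ) ≤ W := Nat.cast_nonneg W
    have hk2 : 0 ≤ (K Y) ^ 2 := sq_nonneg _
    have step1 : (W : ℝ) * (J Y * ((K Y) ^ 2 + 1) + 1) + 1 ≤
        p * (W * (16 * κ ^ 2 * Real.log Y ^ 4 + 2) + 1) := by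
      have h7 : (J Y : ℝ) * ((K Y) ^ 2 + 1) ≤ p * (16 * κ ^ 2 * Real.log Y ^ 4 + 1) := by
        apply mul_le_mul hJp (by linarith) (by positivity) (by linarith)
      have h8 : (W : ℝ) * (J Y * ((K Y) ^ 2 + 1)) ≤
          W * (p * (16 * κ ^ 2 * Real.log Y ^ 4 + 1)) := mul_le_mul_of_nonneg_left h7 hW0
      nlinarith [mul_nonneg hW0 (sub_nonneg.2 hp1)]
    have step2 : (W : ℝ) * (16 * κ ^ 2 * Real.log Y ^ 4 + 2) + 1 ≤
        (16 * W * κ ^ 2 + 2 * W + 1) * Real.log Y ^ 4 := by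
      nlinarith [mul_nonneg hW0 (sub_nonneg.2 hl4)]
    have step3 : p * (W * (16 * κ ^ 2 * Real.log Y ^ 4 + 2) + 1) ≤ p * (Y : ℝ) ^ (ε / 8) :=
      mul_le_mul_of_nonneg_left (step2.trans hY) (by linarith)
    linarith
  have evR : ∀ᶠ Y : ℕ in atTop, ∀ m, M Y < m → (1 + θ) * rhoW W m ≤ θ := by
    obtain ⟨m₁, hm₁⟩ := eventually_atTop.1 (rho_small W (θ / 2) (by positivity))
    filter_upwards [eventually_ge_atTop (2 * m₁ + 3)] with Y hY m hm
    have h1 : m₁ ≤ m := by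
      have : 2 * Y / 3 < m := hm
      omega
    have h2 := hm₁ m h1
    have h3 := rhoW_nonneg W m
    nlinarith
  have evE : ∀ᶠ Y : ℕ in atTop, 2 * Real.log Y + 1 ≤ (Y : ℝ) ^ (ε / 4) := by
    filter_upwards [ev_log 3 1 (ε / 4) (by positivity), eventually_ge_atTop 3] with Y hY hY3
    obtain ⟨l1, -⟩ := log_two_mul Y hY3
    rw [pow_one] at hY
    linarith
  -- the events
  set D : ℕ → Set Ω := fun Y => {ω | ∀ N, Y < N → N ≤ Y + L Y → N % W = r % W →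
    VU (Cut U (K Y)) W N (N / 3) ω ≤ c Y ∧ ω ∉ Avoid A (Cut U (K Y)) N (N / 3)} \
      WV (VX μ ℱ A W θ) (M Y) (Y + L Y - M Y) with hD
  have hDm : ∀ᶠ Y : ℕ in atTop, μ.real (D Y) ≤ ((Y : ℝ) ^ 2)⁻¹ := by
    filter_upwards [evL, evJ, evR, evE, eventually_ge_atTop 10] with Y e1 e2 e3 e4 hY
    have hY1 : (1 : ℝ) ≤ Y := by
      have : 1 ≤ Y := by omega
      exact_mod_cast this
    have hYp : (0 : ℝ) < Y := by linarith
    have h1 : Y + L Y ≤ 3 * M Y := by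
      simp only [hM]
      omega
    have h2 : 3 * M Y ≤ 2 * Y := by
      simp only [hM]
      omega
    have hpl := hPL Ω μ ℱ A (Cut U (K Y)) W r (M Y) Y (L Y) (J Y) θ θ (K Y) (c Y) hA
      (Cut_meas hU (K Y)) hW (fun ω x => hCRK Ω U (K Y) ω x (hK0 Y)) h1 h2 e2 hθ0.le hθ0.le
      (by linarith) e3
    refine hpl.trans ?_
    have h3 : ((Y : ℝ) ^ 2)⁻¹ = Real.exp (-(2 * Real.log Y)) := by
      rw [Real.exp_neg, mul_comm, Real.exp_mul, Real.exp_log hYp]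
      norm_num
    rw [h3]
    apply Real.exp_le_exp.2
    apply neg_le_neg
    have h4 : (Y : ℝ) ^ (-(a + ε / 8)) ≤ Real.exp (-((1 + 2 * θ) * (1 + θ) * c Y)) := by
      rw [Real.rpow_def_of_pos hYp]
      apply Real.exp_le_exp.2
      have hlog : 0 ≤ Real.log (Y : ℝ) := Real.log_natCast_nonneg Y
      have := mul_le_mul_of_nonneg_right hcoef hlog
      simp only [hc]
      nlinarith
    have h5 : (Y : ℝ) ^ (a + 3 * ε / 8) - 1 ≤ J Y := by
      have := Nat.lt_floor_add_one ((Y : ℝ) ^ (a + 3 * ε / 8))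
      simp only [hJ]
      linarith
    have h6 : 0 ≤ (Y : ℝ) ^ (-(a + ε / 8)) := by positivity
    have h7 : (Y : ℝ) ^ (-(a + ε / 8)) ≤ 1 :=
      Real.rpow_le_one_of_one_le_of_nonpos hY1 (by linarith)
    have h8 : (Y : ℝ) ^ (a + 3 * ε / 8) * (Y : ℝ) ^ (-(a + ε / 8)) = (Y : ℝ) ^ (ε / 4) := by
      rw [← Real.rpow_add hYp]
      congr 1
      ring
    calc 2 * Real.log Y ≤ (Y : ℝ) ^ (ε / 4) - 1 := by linarith
      _ ≤ ((Y : ℝ) ^ (a + 3 * ε / 8) - 1) * (Y : ℝ) ^ (-(a + ε / 8)) := by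
          rw [sub_mul, h8]
          linarith
      _ ≤ J Y * (Y : ℝ) ^ (-(a + ε / 8)) := mul_le_mul_of_nonneg_right h5 h6
      _ ≤ J Y * Real.exp (-((1 + 2 * θ) * (1 + θ) * c Y)) :=
          mul_le_mul_of_nonneg_left h4 (Nat.cast_nonneg _)
  have hBC := bc_real (μ := μ) (s := D) (c := fun Y => ((Y : ℝ) ^ 2)⁻¹)
    (Real.summable_nat_pow_inv.2 (by norm_num)) hDm
  filter_upwards [hBC, hprof, hlaw] with ω hω1 hω2 hω3
  -- no violation
  have evV : ∀ᶠ Y : ℕ in atTop, ω ∉ WV (VX μ ℱ A W θ) (M Y) (Y + L Y - M Y) := by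
    obtain ⟨n₀, hn₀⟩ := eventually_atTop.1 (hω2 θ hθ0)
    filter_upwards [eventually_ge_atTop (2 * n₀ + 3)] with Y hY
    rintro ⟨n, hn1, hn2, hn3⟩
    have h1 : n₀ ≤ n := by
      have : 2 * Y / 3 ≤ n := hn1
      omega
    exact hn3 (hn₀ n h1)
  -- the law
  set ε' : ℝ := ε / (64 * (κ + 1)) with hε'
  have hε'0 : 0 < ε' := by positivity
  have hκε' : κ * ε' ≤ ε / 64 := by
    rw [hε', mul_div_assoc', div_le_div_iff₀ (by positivity) (by norm_num)]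
    nlinarith
  obtain ⟨C, hC0, hC⟩ := hCUT Ω U W σ ω hω3 ε' hε'0
  obtain ⟨N₀, hN₀⟩ := eventually_atTop.1 hC
  have evc : ∀ᶠ Y : ℕ in atTop, 3 * (a + ε / 64) + C ≤ 3 * ε / 64 * Real.log Y := by
    have h1 : Tendsto (fun Y : ℕ => 3 * ε / 64 * Real.log Y) atTop atTop :=
      log_top.const_mul_atTop (by positivity)
    exact h1.eventually_ge_atTop _
  filter_upwards [hω1, evV, evL, evc, eventually_ge_atTop (N₀ + 3)] with Y d1 d2 d3 d4 hY
  have hY3 : 3 ≤ Y := by omega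
  obtain ⟨l1, l2, l3, l4⟩ := log_two_mul Y hY3
  have hY1 : (1 : ℝ) ≤ Y := by
    have : 1 ≤ Y := by omega
    exact_mod_cast this
  have hYp : (0 : ℝ) < Y := by linarith
  have hex : ∃ N, Y < N ∧ N ≤ Y + L Y ∧ N % W = r % W ∧
      ¬ (VU (Cut U (K Y)) W N (N / 3) ω ≤ c Y ∧ ω ∉ Avoid A (Cut U (K Y)) N (N / 3)) := by
    by_contra hcon
    push Not at hcon
    exact d1 ⟨fun N hN1 hN2 hN3 => hcon N hN1 hN2 hN3, d2⟩
  obtain ⟨N, hN1, hN2, hN3, hN4⟩ := hex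
  have hN2Y : N ≤ 2 * Y := by omega
  have hN1r : (Y : ℝ) < N := by exact_mod_cast hN1
  have hN2r : (N : ℝ) ≤ 2 * Y := by exact_mod_cast hN2Y
  have hσN : σ N = σ r := hσ N r hN3
  have hVU : VU (Cut U (K Y)) W N (N / 3) ω ≤ c Y := by
    have h1 := (hN₀ N (by omega) (N / 3) (by omega) (K Y) (hK0 Y)).1
      (by rw [hσN]; linarith)
    rw [hσN] at h1
    refine h1.trans ?_
    have h2 : (σ r + ε') * K Y / Real.log N ≤ (a + ε / 64) * (Real.log Y + 3) := by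
      have hlogN : Real.log (Y : ℝ) ≤ Real.log N := Real.log_le_log hYp hN1r.le
      have h3 : (σ r + ε') * K Y = (a + κ * ε') * Real.log (2 * (Y : ℝ)) ^ 2 := by
        simp only [hK, ha]
        ring
      rw [h3, div_le_iff₀ (by linarith)]
      have h4 : Real.log (2 * (Y : ℝ)) ^ 2 ≤ (Real.log Y + 3) * Real.log Y := by
        have h5 : Real.log (2 * (Y : ℝ)) ^ 2 ≤ (Real.log Y + 1) ^ 2 := pow_le_pow_left₀ l4 l3 2
        nlinarith
      have h6 : 0 ≤ a + ε / 64 := by positivity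
      calc (a + κ * ε') * Real.log (2 * (Y : ℝ)) ^ 2
          ≤ (a + ε / 64) * Real.log (2 * (Y : ℝ)) ^ 2 :=
            mul_le_mul_of_nonneg_right (by linarith) (sq_nonneg _)
        _ ≤ (a + ε / 64) * ((Real.log Y + 3) * Real.log Y) := mul_le_mul_of_nonneg_left h4 h6
        _ ≤ (a + ε / 64) * ((Real.log Y + 3) * Real.log N) := by
            refine mul_le_mul_of_nonneg_left ?_ h6
            exact mul_le_mul_of_nonneg_left hlogN (by linarith)
        _ = _ := by ring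
    simp only [hc]
    nlinarith
  have hAv : ω ∈ Avoid A (Cut U (K Y)) N (N / 3) := by
    by_contra hcon
    exact hN4 ⟨hVU, hcon⟩
  refine ⟨N, hN1, ?_, hN3, ?_⟩
  · have h1 : (N : ℝ) ≤ Y + L Y := by exact_mod_cast hN2
    have h2 := hLle Y
    have h3 : (Y : ℝ) ^ (a + ε / 2) ≤ (Y : ℝ) ^ (a + ε) :=
      Real.rpow_le_rpow_of_exponent_le hY1 (by linarith)
    linarith
  · intro t ht1 ht2 ht3 ht4
    refine hAv t ht1 (by omega) ⟨ht3, ht4.trans ?_⟩
    simp only [hK]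
    have h1 : Real.log (N : ℝ) ≤ Real.log (2 * (Y : ℝ)) := Real.log_le_log (by linarith) hN2r
    have h2 : 0 ≤ Real.log (N : ℝ) := Real.log_natCast_nonneg N
    exact mul_le_mul_of_nonneg_left (pow_le_pow_left₀ h2 h1 2) hκ

end Pool.Agent.H95.PI.T.ALOW
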