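import Pool.Agent.H95.PI.Stm

/-! # Team PI: the events behind the upper bound (PI-AUP) -/

set_option autoImplicit false

open MeasureTheory Filter Set
open scoped ENNReal Topology

namespace Pool.Agent.H95.PI.T.AUP

open Pool.Agent.R528.RM Pool.Agent.N9.AD Pool.Agent.H95.PI

section

variable {Ω : Type} [m0 : MeasurableSpace Ω] {μ : Measure Ω} [IsProbabilityMeasure μ]
  {ℱ : Filtration ℕ m0} {A U : ℕ → Set Ω}

lemma avoid_meas (hA : ∀ n, MeasurableSet (A n)) (hU : ∀ n, MeasurableSet (U n)) (N x : ℕ) :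
    MeasurableSet (Avoid A U N x) := by
  have h1 : Avoid A U N x = ⋂ s : ℕ, ({ω | 1 ≤ s → s ≤ x → ω ∈ U s → ω ∉ A (N - s)} : Set Ω) := by
    ext ω
    simp [Avoid]
  rw [h1]
  refine MeasurableSet.iInter fun s => ?_
  by_cases h : 1 ≤ s ∧ s ≤ x
  · have h2 : ({ω | 1 ≤ s → s ≤ x → ω ∈ U s → ω ∉ A (N - s)} : Set Ω) = (U s)ᶜ ∪ (A (N - s))ᶜ := by
      ext ω
      simp only [mem_ofPred_eq, mem_union, mem_compl_iff]
      constructor
      · intro h3
        by_cases h4 : ω ∈ U s
        · exact Or.inr (h3 h.1 h.2 h4)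
        · exact Or.inl h4
      · rintro (h3 | h3) _ _ h4
        · exact absurd h4 h3
        · exact h3
    rw [h2]
    exact (hU s).compl.union (hA _).compl
  · have h2 : ({ω | 1 ≤ s → s ≤ x → ω ∈ U s → ω ∉ A (N - s)} : Set Ω) = univ := by
      ext ω
      simp only [mem_ofPred_eq, mem_univ, iff_true]
      intro h3 h4
      exact absurd ⟨h3, h4⟩ h
    rw [h2]
    exact MeasurableSet.univ

lemma vu_meas (hU : ∀ n, MeasurableSet (U n)) (W N x : ℕ) : Measurable (VU U W N x) := by
  unfold VU
  apply Finset.measurable_sum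
  intro s _
  exact (measurable_const.indicator (hU s)).mul_const _

end

theorem main (hcut : S_CUT) (hpup : S_PUP) : S_AUP := by
  intro Ω m0 μ _ ℱ A U W σ hA hU hprof hlaw s κ η hs hκ hη
  have hκs : 0 ≤ κ * s := mul_nonneg hκ hs.le
  set δ : ℝ := min 1 (η / (2 * (κ * s + 1))) with hδ
  have hδ0 : 0 < δ := lt_min one_pos (by positivity)
  have hδ1 : δ ≤ 1 := min_le_left _ _
  set a : ℝ := κ * s - η / 2 with ha
  have hδa : δ * a ≤ η / 2 := by
    rcases le_or_gt a 0 with h | h
    · have : δ * a ≤ 0 := mul_nonpos_of_nonneg_of_nonpos hδ0.le h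
      linarith
    · have h1 : δ * a ≤ (η / (2 * (κ * s + 1))) * (κ * s + 1) :=
        mul_le_mul (min_le_right _ _) (by linarith) h.le (by positivity)
      have h2 : (η / (2 * (κ * s + 1))) * (κ * s + 1) = η / 2 := by
        field_simp
      linarith
  set K : ℕ → ℝ := fun N => κ * Real.log N ^ 2 with hK
  have hK0 : ∀ N, 0 ≤ K N := fun N => mul_nonneg hκ (sq_nonneg _)
  set X : ℕ → ℕ := fun N => (N - 1) / 2 with hX
  set c : ℕ → ℝ := fun N => a * Real.log N with hc
  set E : ℕ → Set Ω := fun N =>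
    (Avoid A (Cut U (K N)) N (X N) ∩ {ω | c N ≤ VU (Cut U (K N)) W N (X N) ω}) \
      WV (VX μ ℱ A W δ) (X N) (N - 1 - X N) with hE
  have hA' : ∀ n, MeasurableSet (A n) := fun n => ℱ.le n _ (hA n)
  have hCut' : ∀ K n, MeasurableSet (Cut U K n) := fun K n => ℱ.le n _ (Cut_meas hU K n)
  refine ⟨E, fun N => ?_, ?_, ?_⟩
  · refine ((avoid_meas hA' (hCut' _) _ _).inter ?_).diff ?_
    · exact measurableSet_le measurable_const (vu_meas (hCut' _) _ _ _)
    · exact ℱ.le _ _ (WV_meas (fun n => VX_meas W δ n) _ _)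
  · filter_upwards [eventually_ge_atTop 1] with N hN
    have hxN : 2 * X N < N := by
      simp only [hX]
      omega
    have h1 := hpup Ω μ ℱ A (Cut U (K N)) W N (X N) δ (c N) hA (fun n => Cut_meas hU (K N) n)
      hδ0.le hδ1 hxN
    refine h1.trans ?_
    have hN0 : (0 : ℝ) < N := by exact_mod_cast hN
    rw [Real.rpow_def_of_pos hN0]
    apply Real.exp_le_exp.2
    have hlog : 0 ≤ Real.log (N : ℝ) := Real.log_natCast_nonneg N
    have h2 : κ * s - η ≤ (1 - δ) * a := by
      have : (1 - δ) * a = a - δ * a := by ring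
      rw [this]
      linarith
    have h3 : (κ * s - η) * Real.log N ≤ (1 - δ) * a * Real.log N :=
      mul_le_mul_of_nonneg_right h2 hlog
    simp only [hc]
    nlinarith
  · filter_upwards [hprof, hlaw] with ω hp hl
    set ε : ℝ := min (s / 2) (η / (8 * (κ + 1))) with hε
    have hε0 : 0 < ε := lt_min (by positivity) (by positivity)
    have hεs : ε ≤ s / 2 := min_le_left _ _
    have hεκ : ε * κ ≤ η / 8 := by
      have h1 : ε * κ ≤ (η / (8 * (κ + 1))) * (κ + 1) :=
        mul_le_mul (min_le_right _ _) (by linarith) hκ (by positivity)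
      have h2 : (η / (8 * (κ + 1))) * (κ + 1) = η / 8 := by
        field_simp
      linarith
    obtain ⟨C, hC, hN⟩ := hcut Ω U W σ ω hl ε hε0
    obtain ⟨n₀, hn₀⟩ := eventually_atTop.1 (hp δ hδ0)
    have hlogt : Tendsto (fun N : ℕ => Real.log (N : ℝ)) atTop atTop :=
      Real.tendsto_log_atTop.comp tendsto_natCast_atTop_atTop
    filter_upwards [hN, eventually_ge_atTop (2 * n₀ + 1), hlogt.eventually_ge_atTop 1,
      hlogt.eventually_ge_atTop ((s + C) * (8 / (3 * η)))] with N hN hNn hlog1 hlog2 hσ hx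
    obtain ⟨x, hx1, hx2, hx3⟩ := hx
    have hxX : x ≤ X N := by
      simp only [hX]
      omega
    refine ⟨⟨?_, ?_⟩, ?_⟩
    · intro t ht1 ht2 ht3
      have h1 : t ≤ x := by
        by_contra h
        have h2 : rk U ω t = rk U ω (t - 1) + In U t ω := by
          have h3 := rk_succ U ω (t - 1)
          rwa [show t - 1 + 1 = t by omega] at h3
        have h4 : In U t ω = 1 := by
          unfold In
          exact indicator_of_mem ht3.1 _
        have h5 : rk U ω x ≤ rk U ω (t - 1) := rk_mono U ω (by omega)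
        have h6 : rk U ω t ≤ K N := ht3.2
        have h7 : K N ≤ rk U ω x := hx2
        linarith
      exact hx3 t ht1 h1 ht3.1
    · have hxN : 2 * X N < N := by
        simp only [hX]
        omega
      have h1 := (hN (X N) hxN (K N) (hK0 N)).2 (by rw [hσ]; linarith)
        (hx2.trans (rk_mono U ω hxX))
      rw [hσ] at h1
      refine le_trans ?_ h1
      have hlogpos : 0 < Real.log (N : ℝ) := by linarith
      have h2 : (s - ε) * (K N - 1) / Real.log N =
          (s - ε) * κ * Real.log N - (s - ε) / Real.log N := by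
        simp only [hK]
        field_simp
      have h3 : (s - ε) / Real.log N ≤ s := by
        rw [div_le_iff₀ hlogpos]
        nlinarith
      have h4 : (s + C) ≤ 3 * η / 8 * Real.log N := by
        have h5 : (s + C) * (8 / (3 * η)) * (3 * η / 8) ≤ Real.log N * (3 * η / 8) :=
          mul_le_mul_of_nonneg_right hlog2 (by positivity)
        have h6 : (s + C) * (8 / (3 * η)) * (3 * η / 8) = s + C := by
          field_simp
        linarith
      have h7 : ε * κ * Real.log N ≤ η / 8 * Real.log N :=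
        mul_le_mul_of_nonneg_right hεκ hlogpos.le
      rw [h2]
      simp only [hc, ha]
      nlinarith
    · rintro ⟨n, hn1, hn2, hn3⟩
      refine hn3 (hn₀ n ?_)
      have : n₀ ≤ X N := by
        simp only [hX]
        omega
      omega

end Pool.Agent.H95.PI.T.AUP
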