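import Pool.Agent.H95.PI.Stm

set_option autoImplicit false

open MeasureTheory Filter Set
open scoped ENNReal Topology

namespace Pool.Agent.H95.PI.T.CNT

theorem main : S_CNT := by
  intro Ω _ μ _ E a b hE ha hab hev
  have hsum : Summable fun N : ℕ => (N : ℝ) ^ (-a) * μ.real (E N) := by
    have h1 : Summable fun N : ℕ => (N : ℝ) ^ (-(a + b)) := by
      rw [Real.summable_nat_rpow]; linarith
    refine Summable.of_norm_bounded_eventually_nat h1 ?_
    filter_upwards [hev, eventually_ge_atTop 1] with N hN hN1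
    have hN0 : (0 : ℝ) < N := by exact_mod_cast hN1
    rw [Real.norm_of_nonneg (mul_nonneg (Real.rpow_nonneg hN0.le _) measureReal_nonneg),
      neg_add, Real.rpow_add hN0]
    exact mul_le_mul_of_nonneg_left hN (Real.rpow_nonneg hN0.le _)
  have hfin : ∫⁻ ω, ∑' N : ℕ, (E N).indicator (fun _ => ENNReal.ofReal ((N : ℝ) ^ (-a))) ω ∂μ ≠ ⊤ := by
    rw [lintegral_tsum fun N => (measurable_const.indicator (hE N)).aemeasurable]
    have h2 : ∀ N : ℕ, ∫⁻ ω, (E N).indicator (fun _ => ENNReal.ofReal ((N : ℝ) ^ (-a))) ω ∂μ =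
        ENNReal.ofReal ((N : ℝ) ^ (-a) * μ.real (E N)) := by
      intro N
      rw [lintegral_indicator (hE N), setLIntegral_const,
        ENNReal.ofReal_mul (Real.rpow_nonneg (Nat.cast_nonneg N) _), ofReal_measureReal]
    simp only [h2]
    exact hsum.tsum_ofReal_ne_top
  have hae := ae_lt_top' (AEMeasurable.ennreal_tsum fun N =>
    (measurable_const.indicator (hE N)).aemeasurable) hfin
  filter_upwards [hae] with ω hω
  obtain ⟨Z, hZ⟩ : ∃ Z, Z = ∑' N : ℕ, (E N).indicator (fun _ => ENNReal.ofReal ((N : ℝ) ^ (-a))) ω :=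
    ⟨_, rfl⟩
  rw [← hZ] at hω
  refine ⟨1 + Z.toReal, fun X hX => ?_⟩
  have hX0 : (0 : ℝ) < X := by exact_mod_cast hX
  have hX1 : (1 : ℝ) ≤ X := by exact_mod_cast hX
  classical
  obtain ⟨s, hs⟩ : ∃ s : Finset ℕ, s = (Finset.Icc 1 X).filter (fun N => ω ∈ E N) := ⟨_, rfl⟩
  have h3 : {N : ℕ | N ≤ X ∧ ω ∈ E N} ⊆ ((insert 0 s : Finset ℕ) : Set ℕ) := by
    intro N hN
    rw [Finset.mem_coe, Finset.mem_insert, hs, Finset.mem_filter, Finset.mem_Icc]
    rcases Nat.eq_zero_or_pos N with h | h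
    · exact Or.inl h
    · exact Or.inr ⟨⟨h, hN.1⟩, hN.2⟩
  have h4 : ({N : ℕ | N ≤ X ∧ ω ∈ E N}.ncard : ℝ) ≤ 1 + s.card := by
    have h5 := Set.ncard_le_ncard h3 (Finset.finite_toSet _)
    rw [Set.ncard_coe_finset] at h5
    have h6 := h5.trans (Finset.card_insert_le 0 s)
    have : (({N : ℕ | N ≤ X ∧ ω ∈ E N}.ncard : ℕ) : ℝ) ≤ ((s.card + 1 : ℕ) : ℝ) := by exact_mod_cast h6
    push_cast at this
    linarith
  have h5 : (s.card : ℝ) * (X : ℝ) ^ (-a) ≤ Z.toReal := by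
    have h6 : ENNReal.ofReal ((s.card : ℝ) * (X : ℝ) ^ (-a)) ≤ Z := by
      rw [hZ]
      refine le_trans ?_ (ENNReal.sum_le_tsum s)
      rw [ENNReal.ofReal_mul (Nat.cast_nonneg _), ENNReal.ofReal_natCast, ← nsmul_eq_mul]
      refine Finset.card_nsmul_le_sum _ _ _ fun N hN => ?_
      rw [hs, Finset.mem_filter, Finset.mem_Icc] at hN
      rw [Set.indicator_of_mem hN.2]
      refine ENNReal.ofReal_le_ofReal ?_
      refine Real.rpow_le_rpow_of_nonpos (by exact_mod_cast hN.1.1) (by exact_mod_cast hN.1.2)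
        (by linarith)
    exact (ENNReal.ofReal_le_iff_le_toReal hω.ne).1 h6
  have h6 : (1 : ℝ) ≤ (X : ℝ) ^ a := Real.one_le_rpow hX1 ha
  have h7 : (s.card : ℝ) ≤ Z.toReal * (X : ℝ) ^ a := by
    rw [Real.rpow_neg hX0.le, ← div_eq_mul_inv, div_le_iff₀ (by positivity)] at h5
    exact h5
  calc ({N : ℕ | N ≤ X ∧ ω ∈ E N}.ncard : ℝ) ≤ 1 + s.card := h4
    _ ≤ (X : ℝ) ^ a + Z.toReal * (X : ℝ) ^ a := add_le_add h6 h7
    _ = _ := by ring

end Pool.Agent.H95.PI.T.CNT
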