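import Pool.Agent.H95.PI.Stm

set_option autoImplicit false

open MeasureTheory Filter Set
open scoped ENNReal Topology

namespace Pool.Agent.H95.PI.T.CRK

open Pool.Agent.R528.RM Pool.Agent.N9.AD Pool.Agent.H95.PI

theorem le_rk (Ω : Type) (U : ℕ → Set Ω) (K : ℝ) (ω : Ω) (x : ℕ) : rk (Cut U K) ω x ≤ rk U ω x := by
  unfold rk
  refine Finset.sum_le_sum fun s _ => ?_
  unfold In
  exact indicator_le_indicator_of_subset (fun ω h => h.1) (fun _ => zero_le_one) ω

theorem main : S_CRK := by
  intro Ω U K ω x hK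
  induction x with
  | zero => rw [rk_zero]; exact hK
  | succ x ih =>
    by_cases h : ω ∈ Cut U K (x + 1)
    · exact (le_rk Ω U K ω (x + 1)).trans h.2
    · rw [rk_succ]
      have h0 : In (Cut U K) (x + 1) ω = 0 := indicator_of_notMem h _
      rw [h0, add_zero]
      exact ih

end Pool.Agent.H95.PI.T.CRK
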