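import Pool.Agent.H95.PI.Stm

/-! # Team PI: the weighted sums over the elements of rank at most `K` (PI-CUT) -/

set_option autoImplicit false

open MeasureTheory Filter Set
open scoped ENNReal Topology

namespace Pool.Agent.H95.PI.T.CUT

open Pool.Agent.R528.RM Pool.Agent.N9.AD Pool.Agent.H95.PI

lemma cut_point {Ω : Type} (U : ℕ → Set Ω) (W N x : ℕ) (ω : Ω) {K : ℝ} (hK : 0 ≤ K) :
    ∃ x' : ℕ, x' ≤ x ∧ rk U ω x' ≤ K ∧ VU (Cut U K) W N x ω = VU U W N x' ω ∧
      (x' = x ∨ K < rk U ω x' + 1) := by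
  classical
  set x' : ℕ := Nat.findGreatest (fun y => rk U ω y ≤ K) x with hx'
  have h0 : rk U ω 0 ≤ K := by rw [rk_zero]; exact hK
  have h1 : rk U ω x' ≤ K :=
    Nat.findGreatest_spec (P := fun y => rk U ω y ≤ K) (Nat.zero_le x) h0
  have h2 : x' ≤ x := Nat.findGreatest_le x
  have h3 : ∀ k, x' < k → k ≤ x → K < rk U ω k := by
    intro k hk hkx
    have := Nat.findGreatest_is_greatest (P := fun y => rk U ω y ≤ K) hk hkx
    exact not_le.1 this
  refine ⟨x', h2, h1, ?_, ?_⟩
  · unfold VU
    have hsub : Finset.Icc 1 x' ⊆ Finset.Icc 1 x := Finset.Icc_subset_Icc le_rfl h2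
    rw [← Finset.sum_subset hsub]
    · refine Finset.sum_congr rfl fun s hs => ?_
      have hs := Finset.mem_Icc.1 hs
      have h4 : rk U ω s ≤ K := (rk_mono U ω hs.2).trans h1
      have h5 : In (Cut U K) s ω = In U s ω := by
        unfold In
        by_cases h : ω ∈ U s
        · rw [indicator_of_mem h, indicator_of_mem (show ω ∈ Cut U K s from ⟨h, h4⟩)]
        · rw [indicator_of_notMem h, indicator_of_notMem (show ω ∉ Cut U K s from fun h' => h h'.1)]
      rw [h5]
    · intro s hs hs'
      have hs := Finset.mem_Icc.1 hs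
      have hlt : x' < s := by
        by_contra h
        exact hs' (Finset.mem_Icc.2 ⟨hs.1, not_lt.1 h⟩)
      have h4 : K < rk U ω s := h3 s hlt hs.2
      have h5 : In (Cut U K) s ω = 0 := by
        unfold In
        exact indicator_of_notMem (show ω ∉ Cut U K s from fun h' => absurd h'.2 (not_le.2 h4)) _
      rw [h5, zero_mul]
  · rcases h2.lt_or_eq with h | h
    · right
      have h4 := h3 (x' + 1) (by omega) (by omega)
      rw [rk_succ] at h4
      have h5 : In U (x' + 1) ω ≤ 1 := In_le _ _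
      linarith
    · exact Or.inl h

theorem main : S_CUT := by
  intro Ω U W σ ω hlaw ε hε
  obtain ⟨C, hC, hN⟩ := hlaw ε hε
  refine ⟨C, hC, ?_⟩
  filter_upwards [hN] with N hN x hx K hK
  obtain ⟨x', h1, h2, h3, h4⟩ := cut_point U W N x ω hK
  have h5 := hN x' (by omega)
  have h6 := abs_le.1 h5
  have hlog : 0 ≤ Real.log (N : ℝ) := Real.log_natCast_nonneg N
  refine ⟨fun hσ => ?_, fun hσ hKx => ?_⟩
  · have h7 : (σ N + ε) * rk U ω x' / Real.log N ≤ (σ N + ε) * K / Real.log N :=
      div_le_div_of_nonneg_right (mul_le_mul_of_nonneg_left h2 hσ) hlog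
    have h8 : (σ N + ε) * rk U ω x' / Real.log N =
        σ N * rk U ω x' / Real.log N + ε * (rk U ω x' / Real.log N) := by ring
    rw [h3]
    linarith [h6.2]
  · have h9 : K - 1 ≤ rk U ω x' := by
      rcases h4 with h | h
      · rw [h]; linarith
      · linarith
    have h7 : (σ N - ε) * (K - 1) / Real.log N ≤ (σ N - ε) * rk U ω x' / Real.log N :=
      div_le_div_of_nonneg_right (mul_le_mul_of_nonneg_left h9 hσ) hlog
    have h8 : (σ N - ε) * rk U ω x' / Real.log N =
        σ N * rk U ω x' / Real.log N - ε * (rk U ω x' / Real.log N) := by ring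
    rw [h3]
    linarith [h6.1]

end Pool.Agent.H95.PI.T.CUT
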