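import Pool.Agent.H95.PI.Stm

set_option autoImplicit false

namespace Pool.Agent.H95.PI.T.GRD

theorem grd_aux : ∀ (W r : ℕ) (S : Finset ℕ) (Y L J : ℕ), 0 < W → W * (J * (S.card ^ 2 + 1) + 1) ≤ L →
    ∃ I : Finset ℕ, I.card = J ∧ (∀ N ∈ I, Y < N ∧ N ≤ Y + L ∧ N % W = r % W) ∧
      ∀ N ∈ I, ∀ N' ∈ I, N ≠ N' → ∀ a ∈ S, ∀ b ∈ S, N + b ≠ N' + a := by
  intro W r S Y L J hW hL
  obtain ⟨M, hM⟩ : ∃ M, M = J * (S.card ^ 2 + 1) + 1 := ⟨_, rfl⟩
  rw [← hM] at hL
  obtain ⟨i, hi, hir⟩ : ∃ i, i < W ∧ (Y + 1 + i) % W = r % W := by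
    refine ⟨(r + (W - 1) * (Y + 1)) % W, Nat.mod_lt _ hW, ?_⟩
    rw [Nat.add_mod_mod]
    have : Y + 1 + (r + (W - 1) * (Y + 1)) = r + W * (Y + 1) := by
      obtain ⟨w, rfl⟩ : ∃ w, W = w + 1 := ⟨W - 1, by omega⟩
      simp only [Nat.add_sub_cancel]
      ring
    rw [this, Nat.add_mul_mod_self_left]
  obtain ⟨cand, hcd⟩ : ∃ c, c = (Finset.range M).image (fun j => Y + 1 + i + W * j) := ⟨_, rfl⟩
  have hcc : cand.card = M := by
    rw [hcd, Finset.card_image_of_injective, Finset.card_range]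
    intro a b hab
    have hab' : W * a = W * b := by
      have : Y + 1 + i + W * a = Y + 1 + i + W * b := hab
      omega
    exact Nat.eq_of_mul_eq_mul_left hW hab'
  have hcand : ∀ N ∈ cand, Y < N ∧ N ≤ Y + L ∧ N % W = r % W := by
    intro N hN
    rw [hcd, Finset.mem_image] at hN
    obtain ⟨j, hj, rfl⟩ := hN
    rw [Finset.mem_range] at hj
    refine ⟨by omega, ?_, ?_⟩
    · have h1 : W * (j + 1) ≤ W * M := Nat.mul_le_mul_left W hj
      rw [mul_add, mul_one] at h1
      omega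
    · rw [Nat.add_mul_mod_self_left]
      exact hir
  have key : ∀ j ≤ J, ∃ I : Finset ℕ, I ⊆ cand ∧ I.card = j ∧
      ∀ N ∈ I, ∀ N' ∈ I, N ≠ N' → ∀ a ∈ S, ∀ b ∈ S, N + b ≠ N' + a := by
    intro j
    induction j with
    | zero => exact fun _ => ⟨∅, by simp, by simp, by simp⟩
    | succ j ih =>
      intro hj
      obtain ⟨I, hI, hIc, hIg⟩ := ih (by omega)
      obtain ⟨bad, hbad⟩ : ∃ bad, bad = I ∪ (I ×ˢ (S ×ˢ S)).image
        (fun p : ℕ × ℕ × ℕ => p.1 + p.2.1 - p.2.2) := ⟨_, rfl⟩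
      have hbc : bad.card < cand.card := by
        have h1 : bad.card ≤ j + j * S.card ^ 2 := by
          rw [hbad]
          refine (Finset.card_union_le _ _).trans ?_
          rw [hIc]
          refine Nat.add_le_add_left (Finset.card_image_le.trans ?_) _
          rw [Finset.card_product, Finset.card_product, hIc, sq]
        have h2 : j * (S.card ^ 2 + 1) ≤ J * (S.card ^ 2 + 1) := Nat.mul_le_mul_right _ (by omega)
        rw [mul_add, mul_one] at h2
        rw [hcc, hM]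
        omega
      obtain ⟨N', hN', hN'b⟩ := Finset.exists_mem_notMem_of_card_lt_card hbc
      have hn1 : N' ∉ I := fun h => hN'b (by rw [hbad]; exact Finset.mem_union_left _ h)
      have hn2 : ∀ N ∈ I, ∀ a ∈ S, ∀ b ∈ S, N + b ≠ N' + a := by
        intro N hN a ha b hb h
        apply hN'b
        rw [hbad]
        refine Finset.mem_union_right _ (Finset.mem_image.2 ⟨(N, b, a), ?_, ?_⟩)
        · exact Finset.mem_product.2 ⟨hN, Finset.mem_product.2 ⟨hb, ha⟩⟩
        · show N + b - a = N'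
          omega
      refine ⟨insert N' I, Finset.insert_subset hN' hI, by rw [Finset.card_insert_of_notMem hn1, hIc],
        ?_⟩
      intro N1 hN1 N2 hN2 hne a ha b hb
      rw [Finset.mem_insert] at hN1 hN2
      rcases hN1 with rfl | hN1
      · rcases hN2 with rfl | hN2
        · exact absurd rfl hne
        · exact (hn2 N2 hN2 b hb a ha).symm
      · rcases hN2 with rfl | hN2
        · exact hn2 N1 hN1 a ha b hb
        · exact hIg N1 hN1 N2 hN2 hne a ha b hb
  obtain ⟨I, hI, hIc, hIg⟩ := key J le_rfl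
  exact ⟨I, hIc, fun N hN => hcand N (hI hN), hIg⟩

theorem main : S_GRD := grd_aux

end Pool.Agent.H95.PI.T.GRD
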