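import Pool.Agent.H95.PI.Stm

/-! # Team PI: stub PI-HIT -/

set_option autoImplicit false

open MeasureTheory Filter Set
open scoped ENNReal Topology

namespace Pool.Agent.H95.PI.T.HIT

open Pool.Agent.R528.RM Pool.Agent.N9.AD

theorem main : S_HIT := by
  intro Ω m0 μ _ ℱ A W δ hA hδ h
  have hu0 : ∀ m, 0 ≤ (1 + δ) * rhoW W m := fun m =>
    mul_nonneg (by linarith) (rhoW_nonneg W m)
  induction h with
  | zero =>
    intro y I P _ hP _ B hB
    have hPe : ∀ i ∈ I, P i = ∅ := by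
      intro i hi
      have := hP i hi
      rw [add_zero, Finset.Ioc_self] at this
      exact Finset.subset_empty.1 this
    rcases I.eq_empty_or_nonempty with hI | ⟨i, hi⟩
    · subst hI
      rw [Finset.prod_empty, one_mul]
      exact measureReal_mono (sdiff_subset.trans inter_subset_left)
    · have he : (B ∩ {ω | ∀ i ∈ I, ∃ m ∈ P i, ω ∈ A m}) \ WV (VX μ ℱ A W δ) y 0 = ∅ := by
        rw [Set.eq_empty_iff_forall_notMem]
        rintro ω ⟨⟨_, hω⟩, _⟩
        obtain ⟨m, hm, _⟩ := hω i hi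
        rw [hPe i hi] at hm
        exact absurd hm (Finset.notMem_empty m)
      rw [he, measureReal_empty]
      refine mul_nonneg (Finset.prod_nonneg fun j hj => ?_) measureReal_nonneg
      rw [hPe j hj, Finset.prod_empty, sub_self]
  | succ h ih =>
    intro y I P hdis hP hu1 B hB
    set V := VX μ ℱ A W δ with hV
    set B' : Set Ω := B \ V y with hB'
    have hVm : MeasurableSet[ℱ y] (V y) := VX_meas W δ y
    have hB'm : MeasurableSet[ℱ y] B' := hB.diff hVm
    have hB'm1 : MeasurableSet[ℱ (y + 1)] B' := ℱ.mono (Nat.le_succ y) _ hB'm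
    have hB'B : μ.real B' ≤ μ.real B := measureReal_mono sdiff_subset
    have hset : ∀ E : Set Ω, (B ∩ E) \ WV V y (h + 1) = (B' ∩ E) \ WV V (y + 1) h := by
      intro E
      rw [WV_succ]
      ext ω
      simp only [hB', Set.mem_sdiff, mem_inter_iff, mem_union]
      tauto
    rw [hset]
    have hu1' : ∀ m, y + 1 < m → m ≤ y + 1 + h → (1 + δ) * rhoW W m ≤ 1 := fun m h1 h2 =>
      hu1 m (by omega) (by omega)
    have hfac : ∀ R : Finset ℕ, R ⊆ Finset.Ioc y (y + (h + 1)) →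
        0 ≤ ∏ m ∈ R, (1 - (1 + δ) * rhoW W m) ∧ ∏ m ∈ R, (1 - (1 + δ) * rhoW W m) ≤ 1 := by
      intro R hR
      have h1 : ∀ m ∈ R, 0 ≤ 1 - (1 + δ) * rhoW W m := by
        intro m hm
        have := Finset.mem_Ioc.1 (hR hm)
        linarith [hu1 m this.1 this.2]
      exact ⟨Finset.prod_nonneg h1, Finset.prod_le_one h1 fun m _ => by linarith [hu0 m]⟩
    by_cases hn : ∃ i₀ ∈ I, y + 1 ∈ P i₀
    · obtain ⟨i₀, hi₀, hn⟩ := hn
      set Q : Finset ℕ := (P i₀).erase (y + 1) with hQ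
      set P' : ℕ → Finset ℕ := Function.update P i₀ Q with hP'
      have hP'0 : P' i₀ = Q := by rw [hP', Function.update_self]
      have hP'1 : ∀ i, i ≠ i₀ → P' i = P i := fun i hi => by
        rw [hP', Function.update_of_ne hi]
      have hnP : ∀ i ∈ I, i ≠ i₀ → y + 1 ∉ P i := by
        intro i hi hne hmem
        exact Finset.disjoint_left.1 (hdis i hi i₀ hi₀ hne) hmem hn
      have hsub1 : ∀ R : Finset ℕ, R ⊆ Finset.Ioc y (y + (h + 1)) → y + 1 ∉ R →
          R ⊆ Finset.Ioc (y + 1) (y + 1 + h) := by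
        intro R hR hnR m hm
        have h1 := Finset.mem_Ioc.1 (hR hm)
        have h2 : m ≠ y + 1 := fun h => hnR (h ▸ hm)
        exact Finset.mem_Ioc.2 ⟨by omega, by omega⟩
      -- the two parts
      have hBA : MeasurableSet[ℱ (y + 1)] (B' ∩ A (y + 1)) := hB'm1.inter (hA _)
      have hBA' : MeasurableSet[ℱ (y + 1)] (B' \ A (y + 1)) := hB'm1.diff (hA _)
      have ih1 := ih (y + 1) (I.erase i₀) P
        (fun i hi j hj hij => hdis i (Finset.mem_of_mem_erase hi) j (Finset.mem_of_mem_erase hj) hij)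
        (fun i hi => hsub1 _ (hP i (Finset.mem_of_mem_erase hi))
          (hnP i (Finset.mem_of_mem_erase hi) (Finset.ne_of_mem_erase hi)))
        hu1' (B' ∩ A (y + 1)) hBA
      have hP'sub : ∀ i ∈ I, P' i ⊆ P i := by
        intro i hi
        by_cases hii : i = i₀
        · rw [hii, hP'0]; exact Finset.erase_subset _ _
        · rw [hP'1 i hii]
      have hP'n : ∀ i ∈ I, y + 1 ∉ P' i := by
        intro i hi
        by_cases hii : i = i₀
        · rw [hii, hP'0]; exact Finset.notMem_erase _ _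
        · rw [hP'1 i hii]; exact hnP i hi hii
      have ih2 := ih (y + 1) I P'
        (fun i hi j hj hij => (hdis i hi j hj hij).mono (hP'sub i hi) (hP'sub j hj))
        (fun i hi => hsub1 _ ((hP'sub i hi).trans (hP i hi)) (hP'n i hi))
        hu1' (B' \ A (y + 1)) hBA'
      have hsubset : (B' ∩ {ω | ∀ i ∈ I, ∃ m ∈ P i, ω ∈ A m}) \ WV V (y + 1) h ⊆
          (((B' ∩ A (y + 1)) ∩ {ω | ∀ i ∈ I.erase i₀, ∃ m ∈ P i, ω ∈ A m}) \ WV V (y + 1) h) ∪
          (((B' \ A (y + 1)) ∩ {ω | ∀ i ∈ I, ∃ m ∈ P' i, ω ∈ A m}) \ WV V (y + 1) h) := by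
        rintro ω ⟨⟨hωB, hωE⟩, hωV⟩
        by_cases hωA : ω ∈ A (y + 1)
        · left
          exact ⟨⟨⟨hωB, hωA⟩, fun i hi => hωE i (Finset.mem_of_mem_erase hi)⟩, hωV⟩
        · right
          refine ⟨⟨⟨hωB, hωA⟩, fun i hi => ?_⟩, hωV⟩
          obtain ⟨m, hm, hmA⟩ := hωE i hi
          refine ⟨m, ?_, hmA⟩
          by_cases hii : i = i₀
          · rw [hii, hP'0, hQ, Finset.mem_erase]
            refine ⟨fun h => hωA (h ▸ hmA), hii ▸ hm⟩
          · rw [hP'1 i hii]; exact hm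
      have hle := (measureReal_mono hsubset (measure_ne_top μ _)).trans (measureReal_union_le (μ := μ) _ _)
      -- the numbers
      have hA' : MeasurableSet (A (y + 1)) := ℱ.le _ _ (hA _)
      have hsplit := measureReal_inter_add_sdiff (μ := μ) (s := B') hA'
      have hupp : μ.real (B' ∩ A (y + 1)) ≤ (1 + δ) * rhoW W (y + 1) * μ.real B' := by
        refine upper_meas hA y hB'm fun ω hω => ?_
        have h1 : ω ∉ V y := hω.2
        rw [hV] at h1
        simp only [VX, mem_ofPred_eq, not_not] at h1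
        have h2 := (abs_le.1 h1).2
        linarith
      obtain ⟨F, hF⟩ : ∃ F : ℝ, F = ∏ i ∈ I.erase i₀, (1 - ∏ m ∈ P i, (1 - (1 + δ) * rhoW W m)) :=
        ⟨_, rfl⟩
      obtain ⟨q, hq⟩ : ∃ q : ℝ, q = ∏ m ∈ Q, (1 - (1 + δ) * rhoW W m) := ⟨_, rfl⟩
      have hF0 : 0 ≤ F := by
        rw [hF]
        refine Finset.prod_nonneg fun i hi => ?_
        linarith [(hfac (P i) (hP i (Finset.mem_of_mem_erase hi))).2]
      have hqb : 0 ≤ q ∧ q ≤ 1 := by
        rw [hq]; exact hfac Q ((Finset.erase_subset _ _).trans (hP i₀ hi₀))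
      have hprod1 : (∏ i ∈ I, (1 - ∏ m ∈ P' i, (1 - (1 + δ) * rhoW W m))) = (1 - q) * F := by
        rw [← Finset.mul_prod_erase I _ hi₀, hP'0, ← hq, hF]
        congr 1
        refine Finset.prod_congr rfl fun i hi => ?_
        rw [hP'1 i (Finset.ne_of_mem_erase hi)]
      have hprod2 : (∏ i ∈ I, (1 - ∏ m ∈ P i, (1 - (1 + δ) * rhoW W m))) =
          (1 - (1 - (1 + δ) * rhoW W (y + 1)) * q) * F := by
        rw [← Finset.mul_prod_erase I _ hi₀, ← Finset.mul_prod_erase (P i₀) _ hn, ← hQ, ← hq, hF]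
      rw [← hF] at ih1
      rw [hprod1] at ih2
      rw [hprod2]
      obtain ⟨a, ha⟩ : ∃ a : ℝ, a = μ.real (B' ∩ A (y + 1)) := ⟨_, rfl⟩
      obtain ⟨b, hb⟩ : ∃ b : ℝ, b = μ.real B' := ⟨_, rfl⟩
      have hb0 : 0 ≤ b := by rw [hb]; exact measureReal_nonneg
      have hc : μ.real (B' \ A (y + 1)) = b - a := by rw [ha, hb]; linarith
      rw [hc] at ih2
      rw [← ha] at ih1
      rw [← ha, ← hb] at hupp
      rw [← hb] at hB'B
      obtain ⟨u, hu⟩ : ∃ u : ℝ, u = (1 + δ) * rhoW W (y + 1) := ⟨_, rfl⟩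
      have hun0 : 0 ≤ u := by rw [hu]; exact hu0 _
      have hun1 : u ≤ 1 := by rw [hu]; exact hu1 _ (by omega) (by omega)
      rw [← hu] at hupp ⊢
      have h1 : F * a + (1 - q) * F * (b - a) ≤ (1 - (1 - u) * q) * F * b := by
        have e1 : (1 - (1 - u) * q) * F * b - (F * a + (1 - q) * F * (b - a)) = F * q * (u * b - a) := by
          ring
        have e2 : 0 ≤ F * q * (u * b - a) := mul_nonneg (mul_nonneg hF0 hqb.1) (by linarith)
        linarith
      have h2 : (1 - (1 - u) * q) * F * b ≤ (1 - (1 - u) * q) * F * μ.real B := by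
        refine mul_le_mul_of_nonneg_left hB'B (mul_nonneg ?_ hF0)
        have : (1 - u) * q ≤ 1 := mul_le_one₀ (by linarith) hqb.1 hqb.2
        linarith
      linarith
    · push Not at hn
      have hPsub : ∀ i ∈ I, P i ⊆ Finset.Ioc (y + 1) (y + 1 + h) := by
        intro i hi m hm
        have h1 := Finset.mem_Ioc.1 (hP i hi hm)
        have h2 : m ≠ y + 1 := fun h => hn i hi (h ▸ hm)
        exact Finset.mem_Ioc.2 ⟨by omega, by omega⟩
      refine (ih (y + 1) I P hdis hPsub hu1' B' hB'm1).trans ?_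
      refine mul_le_mul_of_nonneg_left hB'B (Finset.prod_nonneg fun i hi => ?_)
      linarith [(hfac (P i) (hP i hi)).2]

end Pool.Agent.H95.PI.T.HIT
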