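import Pool.Agent.H95.PI.Stm

set_option autoImplicit false

open MeasureTheory Filter Set
open scoped ENNReal Topology

namespace Pool.Agent.H95.PI.T.MISS

open Pool.Agent.R528.RM Pool.Agent.N9.AD

theorem main : S_MISS := by
  intro Ω m0 μ _ ℱ A W δ hA hδ0 hδ1 h
  induction h with
  | zero =>
    intro y R hR B hB
    have hR0 : R = ∅ := by
      rw [Nat.add_zero, Finset.Ioc_self] at hR
      exact Finset.subset_empty.1 hR
    subst hR0
    rw [Finset.sum_empty, mul_zero, neg_zero, Real.exp_zero, one_mul]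
    exact measureReal_mono (Set.sdiff_subset.trans Set.inter_subset_left)
  | succ h ih =>
    intro y R hR B hB
    obtain ⟨V, hV⟩ : ∃ V, V = VX μ ℱ A W δ y := ⟨_, rfl⟩
    have hVm : MeasurableSet[ℱ y] V := by rw [hV]; exact VX_meas W δ y
    obtain ⟨B', hB'⟩ : ∃ B', B' = B \ V := ⟨_, rfl⟩
    have hB'm : MeasurableSet[ℱ y] B' := by rw [hB']; exact hB.diff hVm
    have hle : μ.real B' ≤ μ.real B := measureReal_mono (by rw [hB']; exact Set.sdiff_subset)
    have hsplit : ∀ T : Set Ω, (B ∩ T) \ WV (VX μ ℱ A W δ) y (h + 1) =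
        (B' ∩ T) \ WV (VX μ ℱ A W δ) (y + 1) h := by
      intro T
      rw [WV_succ, ← hV, hB']
      ext ω
      simp only [Set.mem_sdiff, Set.mem_inter_iff, Set.mem_union]
      tauto
    rw [hsplit]
    by_cases hn : y + 1 ∈ R
    · obtain ⟨R', hR'⟩ : ∃ R', R' = R.erase (y + 1) := ⟨_, rfl⟩
      have hR's : R' ⊆ Finset.Ioc (y + 1) (y + 1 + h) := by
        intro m hm
        rw [hR', Finset.mem_erase] at hm
        have := Finset.mem_Ioc.1 (hR hm.2)
        rw [Finset.mem_Ioc]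
        omega
      obtain ⟨D, hD⟩ : ∃ D, D = B' \ A (y + 1) := ⟨_, rfl⟩
      have hDm : MeasurableSet[ℱ (y + 1)] D := by
        rw [hD]
        exact (ℱ.mono (Nat.le_succ y) _ hB'm).diff (hA (y + 1))
      have h1 := ih (y + 1) R' hR's D hDm
      have h2 : (B' ∩ {ω | ∀ m ∈ R, ω ∉ A m}) \ WV (VX μ ℱ A W δ) (y + 1) h ⊆
          (D ∩ {ω | ∀ m ∈ R', ω ∉ A m}) \ WV (VX μ ℱ A W δ) (y + 1) h := by
        rintro ω ⟨⟨h3, h4⟩, h5⟩
        refine ⟨⟨?_, fun m hm => h4 m ?_⟩, h5⟩
        · rw [hD]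
          exact ⟨h3, h4 _ hn⟩
        · rw [hR'] at hm
          exact Finset.mem_of_mem_erase hm
      have h3 : μ.real D ≤ (1 - (1 - δ) * rhoW W (y + 1)) * μ.real B' := by
        have h4 := lower_meas (μ := μ) hA y hB'm (l := (1 - δ) * rhoW W (y + 1)) (fun ω hω => by
          rw [hB'] at hω
          have h5 : |dens μ ℱ A y ω - rhoW W (y + 1)| ≤ δ * rhoW W (y + 1) := by
            by_contra h6
            exact hω.2 (by rw [hV]; exact h6)
          have := (abs_le.1 h5).1
          linarith)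
        have h5 : μ.real B' = μ.real (B' ∩ A (y + 1)) + μ.real (B' \ A (y + 1)) :=
          (measureReal_inter_add_diff (ℱ.le _ _ (hA (y + 1)))).symm
        rw [hD]
        linarith
      have h4 : ∑ m ∈ R, rhoW W m = rhoW W (y + 1) + ∑ m ∈ R', rhoW W m := by
        rw [hR', Finset.add_sum_erase _ _ hn]
      have h5 : 1 - (1 - δ) * rhoW W (y + 1) ≤ Real.exp (-((1 - δ) * rhoW W (y + 1))) := by
        have := Real.add_one_le_exp (-((1 - δ) * rhoW W (y + 1)))
        linarith
      calc μ.real ((B' ∩ {ω | ∀ m ∈ R, ω ∉ A m}) \ WV (VX μ ℱ A W δ) (y + 1) h)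
          ≤ μ.real ((D ∩ {ω | ∀ m ∈ R', ω ∉ A m}) \ WV (VX μ ℱ A W δ) (y + 1) h) :=
            measureReal_mono h2
        _ ≤ Real.exp (-((1 - δ) * ∑ m ∈ R', rhoW W m)) * μ.real D := h1
        _ ≤ Real.exp (-((1 - δ) * ∑ m ∈ R', rhoW W m)) *
            (Real.exp (-((1 - δ) * rhoW W (y + 1))) * μ.real B) := by
            refine mul_le_mul_of_nonneg_left (h3.trans ?_) (Real.exp_nonneg _)
            exact mul_le_mul h5 hle measureReal_nonneg (Real.exp_nonneg _)
        _ = _ := by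
            rw [h4, ← mul_assoc, ← Real.exp_add]
            congr 2
            ring
    · have hR's : R ⊆ Finset.Ioc (y + 1) (y + 1 + h) := by
        intro m hm
        have := Finset.mem_Ioc.1 (hR hm)
        have h6 : m ≠ y + 1 := fun h7 => hn (h7 ▸ hm)
        rw [Finset.mem_Ioc]
        omega
      exact (ih (y + 1) R hR's B' (ℱ.mono (Nat.le_succ y) _ hB'm)).trans
        (mul_le_mul_of_nonneg_left hle (Real.exp_nonneg _))

end Pool.Agent.H95.PI.T.MISS
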