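import Pool.Agent.H95.PI.Stm

/-!
# PI-PLOW: the probability that no `N` is avoided
-/

set_option autoImplicit false
set_option linter.unusedSectionVars false

open MeasureTheory Filter Set
open scoped ENNReal Topology

namespace Pool.Agent.H95.PI.T.PLOW

open Pool.Agent.R528.RM Pool.Agent.N9.AD

lemma one_sub_ge {u θ : ℝ} (hu : 0 ≤ u) (hut : u ≤ θ) (hθ : θ ≤ 1 / 2) :
    Real.exp (-((1 + 2 * θ) * u)) ≤ 1 - u := by
  have h1 : 1 + (1 + 2 * θ) * u ≤ Real.exp ((1 + 2 * θ) * u) := by
    have := Real.add_one_le_exp ((1 + 2 * θ) * u)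
    linarith
  have h2 : 0 ≤ 1 - u := by linarith
  have h3 : 1 ≤ (1 - u) * (1 + (1 + 2 * θ) * u) := by
    nlinarith [mul_nonneg hu (sub_nonneg.2 hut), mul_nonneg (mul_nonneg hu hu)
      (show (0 : ℝ) ≤ 1 - 2 * u by linarith), mul_nonneg hu h2]
  have h4 : 1 ≤ (1 - u) * Real.exp ((1 + 2 * θ) * u) :=
    h3.trans (mul_le_mul_of_nonneg_left h1 h2)
  rw [Real.exp_neg]
  have h5 := Real.exp_pos ((1 + 2 * θ) * u)
  rw [inv_le_iff_one_le_mul₀ h5]
  exact h4

variable {Ω : Type}

/-- the part where the members of `U` in `[1, M]` are the elements of `S` -/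
def H (U : ℕ → Set Ω) (M : ℕ) (S : Finset ℕ) : Set Ω :=
  {ω | ∀ s ∈ Finset.Icc 1 M, (ω ∈ U s ↔ s ∈ S)}

lemma H_meas {m0 : MeasurableSpace Ω} {ℱ : Filtration ℕ m0} {U : ℕ → Set Ω}
    (hU : ∀ n, MeasurableSet[ℱ n] (U n)) (M : ℕ) (S : Finset ℕ) :
    MeasurableSet[ℱ M] (H U M S) := by
  have e : H U M S = ⋂ s ∈ Finset.Icc 1 M, {ω | ω ∈ U s ↔ s ∈ S} := by
    ext ω
    simp only [H, mem_iInter]
    rfl
  rw [e]
  refine @Finset.measurableSet_biInter _ _ (ℱ M) _ _ fun s hs => ?_
  have hsM : s ≤ M := (Finset.mem_Icc.1 hs).2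
  by_cases h : s ∈ S
  · have e2 : {ω | ω ∈ U s ↔ s ∈ S} = U s := by
      ext ω
      show (ω ∈ U s ↔ s ∈ S) ↔ ω ∈ U s
      simp [h]
    rw [e2]
    exact ℱ.mono hsM _ (hU s)
  · have e2 : {ω | ω ∈ U s ↔ s ∈ S} = (U s)ᶜ := by
      ext ω
      show (ω ∈ U s ↔ s ∈ S) ↔ ω ∉ U s
      simp [h]
    rw [e2]
    exact @MeasurableSet.compl _ _ (ℱ M) (ℱ.mono hsM _ (hU s))

lemma In_H {U : ℕ → Set Ω} {M : ℕ} {S : Finset ℕ} {ω : Ω} (h : ω ∈ H U M S) {s : ℕ}
    (hs : s ∈ Finset.Icc 1 M) : In U s ω = if s ∈ S then 1 else 0 := by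
  have h1 := h s hs
  unfold In
  by_cases h2 : s ∈ S
  · rw [if_pos h2, indicator_of_mem (h1.2 h2)]
  · rw [if_neg h2, indicator_of_notMem fun h3 => h2 (h1.1 h3)]

theorem main (hHIT : S_HIT) (hGRD : S_GRD) : S_PLOW := by
  classical
  intro Ω m0 μ _ ℱ A U W r M Y L J δ θ K c hA hU hW hK h1 h2 h3 hδ hθ hθ2 hM
  set D : Set Ω := {ω | ∀ N, Y < N → N ≤ Y + L → N % W = r % W →
        VU U W N (N / 3) ω ≤ c ∧ ω ∉ Avoid A U N (N / 3)} with hD
  set V := WV (VX μ ℱ A W δ) M (Y + L - M) with hV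
  set q : ℝ := Real.exp (-((1 + 2 * θ) * (1 + δ) * c)) with hq
  have hq0 : 0 < q := Real.exp_pos _
  -- one part
  have part : ∀ S ∈ (Finset.Icc 1 M).powerset,
      μ.real ((H U M S ∩ D) \ V) ≤ Real.exp (-(J * q)) * μ.real (H U M S) := by
    intro S hS
    have hS' : S ⊆ Finset.Icc 1 M := Finset.mem_powerset.1 hS
    rcases Set.eq_empty_or_nonempty ((H U M S ∩ D) \ V) with he | ⟨ω₀, hω₀⟩
    · rw [he, measureReal_empty]
      positivity
    · have hω₀H : ω₀ ∈ H U M S := hω₀.1.1
      have hω₀D : ω₀ ∈ D := hω₀.1.2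
      have hcard : (S.card : ℝ) ≤ K := by
        refine le_trans (le_of_eq ?_) (hK ω₀ M)
        unfold rk
        rw [Finset.sum_congr rfl fun s hs => In_H hω₀H hs, Finset.sum_ite_mem,
          Finset.inter_eq_right.2 hS']
        simp
      have hL : W * (J * (S.card ^ 2 + 1) + 1) ≤ L := by
        have h4 : ((W * (J * (S.card ^ 2 + 1) + 1) : ℕ) : ℝ) ≤ (L : ℝ) := by
          push_cast
          refine le_trans ?_ h3
          have h5 : (S.card : ℝ) ^ 2 ≤ K ^ 2 := by gcongr
          gcongr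
        exact_mod_cast h4
      obtain ⟨I, hI1, hI2, hI3⟩ := hGRD W r S Y L J hW hL
      set P : ℕ → Finset ℕ := fun N => (S.filter (· ≤ N / 3)).image (fun s => N - s) with hP
      have hPsub : ∀ N ∈ I, P N ⊆ Finset.Ioc M (M + (Y + L - M)) := by
        intro N hN m hm
        obtain ⟨hN1, hN2, -⟩ := hI2 N hN
        rw [hP] at hm
        obtain ⟨s, hs, rfl⟩ := Finset.mem_image.1 hm
        rw [Finset.mem_filter] at hs
        have hs2 := hs.2
        rw [Finset.mem_Ioc]
        omega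
      have hPdis : ∀ i ∈ I, ∀ j ∈ I, i ≠ j → Disjoint (P i) (P j) := by
        intro i hi j hj hij
        rw [Finset.disjoint_left]
        intro m hm hm'
        obtain ⟨a, ha, hma⟩ := Finset.mem_image.1 hm
        obtain ⟨b, hb, hmb⟩ := Finset.mem_image.1 hm'
        rw [Finset.mem_filter] at ha hb
        have ha2 := ha.2
        have hb2 := hb.2
        have h6 := hI3 i hi j hj hij a ha.1 b hb.1
        apply h6
        omega
      have hu1 : ∀ m, M < m → m ≤ M + (Y + L - M) → (1 + δ) * rhoW W m ≤ 1 := by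
        intro m hm _
        linarith [hM m hm]
      -- the sums
      have hVU : ∀ ω ∈ H U M S, ∀ N ∈ I, VU U W N (N / 3) ω = ∑ m ∈ P N, rhoW W m := by
        intro ω hω N hN
        obtain ⟨hN1, hN2, -⟩ := hI2 N hN
        have hN3 : N / 3 ≤ M := by omega
        rw [hP]
        rw [Finset.sum_image (by
          intro a ha b hb hab
          have ha' := (Finset.mem_filter.1 ha).2
          have hb' := (Finset.mem_filter.1 hb).2
          simp only at hab
          omega)]
        unfold VU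
        have h7 : ∀ s ∈ Finset.Icc 1 (N / 3), In U s ω * rhoW W (N - s) =
            if s ∈ S then rhoW W (N - s) else 0 := by
          intro s hs
          have hs' := Finset.mem_Icc.1 hs
          rw [In_H hω (Finset.mem_Icc.2 ⟨hs'.1, hs'.2.trans hN3⟩)]
          split_ifs <;> simp
        rw [Finset.sum_congr rfl h7, ← Finset.sum_filter]
        refine Finset.sum_congr ?_ fun _ _ => rfl
        ext s
        rw [Finset.mem_filter, Finset.mem_filter, Finset.mem_Icc]
        constructor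
        · rintro ⟨h8, h9⟩
          exact ⟨h9, h8.2⟩
        · rintro ⟨h8, h9⟩
          exact ⟨⟨(Finset.mem_Icc.1 (hS' h8)).1, h9⟩, h8⟩
      have hvc : ∀ N ∈ I, ∑ m ∈ P N, rhoW W m ≤ c := by
        intro N hN
        obtain ⟨hN1, hN2, hN3⟩ := hI2 N hN
        rw [← hVU ω₀ hω₀H N hN]
        exact (hω₀D N hN1 hN2 hN3).1
      -- the event
      have hsub : (H U M S ∩ D) \ V ⊆
          (H U M S ∩ {ω | ∀ i ∈ I, ∃ m ∈ P i, ω ∈ A m}) \ V := by
        rintro ω ⟨⟨hωH, hωD⟩, hωV⟩
        refine ⟨⟨hωH, fun N hN => ?_⟩, hωV⟩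
        obtain ⟨hN1, hN2, hN3⟩ := hI2 N hN
        have h10 := (hωD N hN1 hN2 hN3).2
        unfold Avoid at h10
        have h11 : ∃ s, 1 ≤ s ∧ s ≤ N / 3 ∧ ω ∈ U s ∧ ω ∈ A (N - s) := by
          by_contra hcon
          push Not at hcon
          exact h10 fun s hs1 hs2 hs3 => hcon s hs1 hs2 hs3
        obtain ⟨s, hs1, hs2, hs3, hs4⟩ := h11
        refine ⟨N - s, ?_, hs4⟩
        rw [hP]
        refine Finset.mem_image.2 ⟨s, ?_, rfl⟩
        rw [Finset.mem_filter]
        exact ⟨(hωH s (Finset.mem_Icc.2 ⟨hs1, by omega⟩)).1 hs3, hs2⟩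
      refine (measureReal_mono hsub).trans ?_
      refine (hHIT Ω μ ℱ A W δ hA hδ (Y + L - M) M I P hPdis hPsub hu1 (H U M S)
        (H_meas hU M S)).trans ?_
      refine mul_le_mul_of_nonneg_right ?_ measureReal_nonneg
      have hfac : ∀ i ∈ I, 0 ≤ (1 - ∏ m ∈ P i, (1 - (1 + δ) * rhoW W m)) ∧
          (1 - ∏ m ∈ P i, (1 - (1 + δ) * rhoW W m)) ≤ Real.exp (-q) := by
        intro i hi
        have hm : ∀ m ∈ P i, 0 ≤ (1 + δ) * rhoW W m ∧ (1 + δ) * rhoW W m ≤ θ := by
          intro m hm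
          have h12 := Finset.mem_Ioc.1 (hPsub i hi hm)
          exact ⟨mul_nonneg (by linarith) (rhoW_nonneg W m), hM m h12.1⟩
        constructor
        · have h13 : ∏ m ∈ P i, (1 - (1 + δ) * rhoW W m) ≤ 1 :=
            Finset.prod_le_one (fun m h => by linarith [(hm m h).2]) fun m h => by
              linarith [(hm m h).1]
          linarith
        · have h14 : q ≤ ∏ m ∈ P i, (1 - (1 + δ) * rhoW W m) := by
            calc q ≤ Real.exp (-((1 + 2 * θ) * (1 + δ) * ∑ m ∈ P i, rhoW W m)) := by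
                  apply Real.exp_le_exp.2
                  apply neg_le_neg
                  exact mul_le_mul_of_nonneg_left (hvc i hi)
                    (mul_nonneg (by linarith) (by linarith))
              _ = ∏ m ∈ P i, Real.exp (-((1 + 2 * θ) * ((1 + δ) * rhoW W m))) := by
                  rw [← Real.exp_sum]
                  congr 1
                  rw [Finset.sum_neg_distrib, Finset.mul_sum]
                  congr 1
                  exact Finset.sum_congr rfl fun m _ => by ring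
              _ ≤ ∏ m ∈ P i, (1 - (1 + δ) * rhoW W m) := by
                  refine Finset.prod_le_prod (fun m _ => (Real.exp_pos _).le) fun m h => ?_
                  exact one_sub_ge (hm m h).1 (hm m h).2 hθ2
          have h15 := Real.one_sub_le_exp_neg q
          linarith
      calc ∏ i ∈ I, (1 - ∏ m ∈ P i, (1 - (1 + δ) * rhoW W m)) ≤ ∏ _i ∈ I, Real.exp (-q) :=
            Finset.prod_le_prod (fun i hi => (hfac i hi).1) fun i hi => (hfac i hi).2
        _ = Real.exp (-(J * q)) := by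
            rw [Finset.prod_const, hI1, ← Real.exp_nat_mul]
            congr 1
            ring
  -- the union
  have hcov : D \ V ⊆ ⋃ S ∈ (Finset.Icc 1 M).powerset, (H U M S ∩ D) \ V := by
    intro ω hω
    rw [mem_iUnion₂]
    refine ⟨(Finset.Icc 1 M).filter (fun s => ω ∈ U s), ?_, ⟨?_, hω.1⟩, hω.2⟩
    · rw [Finset.mem_powerset]
      exact Finset.filter_subset _ _
    · intro s hs
      rw [Finset.mem_filter]
      exact ⟨fun h => ⟨hs, h⟩, fun h => h.2⟩
  have hdisj : (((Finset.Icc 1 M).powerset : Finset (Finset ℕ)) : Set (Finset ℕ)).PairwiseDisjoint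
      (H U M) := by
    intro S hS T hT hST
    have hS' : S ⊆ Finset.Icc 1 M := Finset.mem_powerset.1 hS
    have hT' : T ⊆ Finset.Icc 1 M := Finset.mem_powerset.1 hT
    rw [Function.onFun, Set.disjoint_left]
    intro ω hω hω'
    apply hST
    ext s
    constructor
    · intro h
      have h16 := hS' h
      exact (hω' s h16).1 ((hω s h16).2 h)
    · intro h
      have h16 := hT' h
      exact (hω s h16).1 ((hω' s h16).2 h)
  calc μ.real (D \ V) ≤ μ.real (⋃ S ∈ (Finset.Icc 1 M).powerset, (H U M S ∩ D) \ V) :=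
        measureReal_mono hcov (measure_ne_top μ _)
    _ ≤ ∑ S ∈ (Finset.Icc 1 M).powerset, μ.real ((H U M S ∩ D) \ V) :=
        measureReal_biUnion_finset_le _ _
    _ ≤ ∑ S ∈ (Finset.Icc 1 M).powerset, Real.exp (-(J * q)) * μ.real (H U M S) :=
        Finset.sum_le_sum part
    _ = Real.exp (-(J * q)) * ∑ S ∈ (Finset.Icc 1 M).powerset, μ.real (H U M S) := by
        rw [Finset.mul_sum]
    _ ≤ Real.exp (-(J * q)) * 1 := by
        refine mul_le_mul_of_nonneg_left ?_ (Real.exp_pos _).le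
        rw [← measureReal_biUnion_finset hdisj fun S _ => ℱ.le M _ (H_meas hU M S)]
        exact measureReal_le_one
    _ = _ := mul_one _

end Pool.Agent.H95.PI.T.PLOW
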