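import Pool.Agent.H95.PI.Stm

set_option autoImplicit false

open MeasureTheory Filter Set
open scoped ENNReal Topology

namespace Pool.Agent.H95.PI.T.PUP

open Pool.Agent.R528.RM Pool.Agent.N9.AD Pool.Agent.H95.PI

/-- the chosen elements up to `x` are those of `S` -/
def HS {Ω : Type} (U : ℕ → Set Ω) (x : ℕ) (S : Finset ℕ) : Set Ω :=
  {ω | ∀ s ∈ Finset.Icc 1 x, (ω ∈ U s ↔ s ∈ S)}

theorem HS_meas {Ω : Type} {m0 : MeasurableSpace Ω} {ℱ : Filtration ℕ m0} {U : ℕ → Set Ω}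
    (hU : ∀ n, MeasurableSet[ℱ n] (U n)) (x : ℕ) (S : Finset ℕ) :
    MeasurableSet[ℱ x] (HS U x S) := by
  have e : HS U x S = ⋂ s ∈ Finset.Icc 1 x, {ω | ω ∈ U s ↔ s ∈ S} := by
    ext ω
    simp only [HS, mem_ofPred_eq, mem_iInter]
  rw [e]
  refine @Finset.measurableSet_biInter _ _ (ℱ x) _ (Finset.Icc 1 x) fun s hs => ?_
  have hsx : s ≤ x := (Finset.mem_Icc.1 hs).2
  by_cases h : s ∈ S
  · have e2 : {ω | ω ∈ U s ↔ s ∈ S} = U s := by
      ext ω
      simp only [mem_ofPred_eq, h, iff_true]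
    rw [e2]
    exact ℱ.mono hsx _ (hU s)
  · have e2 : {ω | ω ∈ U s ↔ s ∈ S} = (U s)ᶜ := by
      ext ω
      simp only [mem_ofPred_eq, h, iff_false, mem_compl_iff]
    rw [e2]
    exact (ℱ.mono hsx _ (hU s)).compl

theorem HS_cov {Ω : Type} (U : ℕ → Set Ω) (x : ℕ) (ω : Ω) :
    ∃ S ∈ (Finset.Icc 1 x).powerset, ω ∈ HS U x S := by
  classical
  refine ⟨(Finset.Icc 1 x).filter fun s => ω ∈ U s, ?_, ?_⟩
  · rw [Finset.mem_powerset]
    exact Finset.filter_subset _ _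
  · intro s hs
    rw [Finset.mem_filter]
    exact ⟨fun h => ⟨hs, h⟩, fun h => h.2⟩

theorem HS_disj {Ω : Type} (U : ℕ → Set Ω) (x : ℕ) {S T : Finset ℕ}
    (hS : S ∈ (Finset.Icc 1 x).powerset) (hT : T ∈ (Finset.Icc 1 x).powerset) (h : S ≠ T) :
    Disjoint (HS U x S) (HS U x T) := by
  rw [Set.disjoint_left]
  intro ω h1 h2
  rw [Finset.mem_powerset] at hS hT
  apply h
  ext s
  constructor
  · intro hs
    exact (h2 s (hS hs)).1 ((h1 s (hS hs)).2 hs)
  · intro hs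
    exact (h1 s (hT hs)).1 ((h2 s (hT hs)).2 hs)

/-- the probabilities sum to at most `1` -/
theorem HS_sum {Ω : Type} {m0 : MeasurableSpace Ω} {μ : Measure Ω} [IsProbabilityMeasure μ]
    {ℱ : Filtration ℕ m0} {U : ℕ → Set Ω}
    (hU : ∀ n, MeasurableSet[ℱ n] (U n)) (x : ℕ) :
    ∑ S ∈ (Finset.Icc 1 x).powerset, μ.real (HS U x S) ≤ 1 := by
  rw [← measureReal_biUnion_finset (fun S hS T hT h => HS_disj U x hS hT h)
    (fun S _ => ℱ.le x _ (HS_meas hU x S))]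
  exact measureReal_le_one

theorem VU_eq {Ω : Type} (U : ℕ → Set Ω) (W : ℕ) {N x : ℕ} {S : Finset ℕ}
    (hS : S ∈ (Finset.Icc 1 x).powerset) (hx : x < N) {ω : Ω} (hω : ω ∈ HS U x S) :
    VU U W N x ω = ∑ m ∈ S.image (N - ·), rhoW W m := by
  rw [Finset.mem_powerset] at hS
  rw [Finset.sum_image]
  · unfold VU
    rw [← Finset.sum_subset hS]
    · refine Finset.sum_congr rfl fun s hs => ?_
      have h1 : In U s ω = 1 := indicator_of_mem ((hω s (hS hs)).2 hs) _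
      rw [h1, one_mul]
    · intro s hs hsS
      have h1 : In U s ω = 0 := indicator_of_notMem (fun h => hsS ((hω s hs).1 h)) _
      rw [h1, zero_mul]
  · intro a ha b hb hab
    have h1 := (Finset.mem_Icc.1 (hS ha)).2
    have h2 := (Finset.mem_Icc.1 (hS hb)).2
    simp only at hab
    omega

theorem main (hM : S_MISS) : S_PUP := by
  intro Ω m0 μ _ ℱ A U W N x δ c hA hU hδ0 hδ1 hx
  set V : Set Ω := WV (VX μ ℱ A W δ) x (N - 1 - x) with hV
  set E : Set Ω := (Avoid A U N x ∩ {ω | c ≤ VU U W N x ω}) \ V with hE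
  have hsub : E ⊆ ⋃ S ∈ (Finset.Icc 1 x).powerset, E ∩ HS U x S := by
    intro ω hω
    obtain ⟨S, hS, h1⟩ := HS_cov U x ω
    exact mem_iUnion₂.2 ⟨S, hS, hω, h1⟩
  have hone : ∀ S ∈ (Finset.Icc 1 x).powerset,
      μ.real (E ∩ HS U x S) ≤ Real.exp (-((1 - δ) * c)) * μ.real (HS U x S) := by
    intro S hS
    rcases (E ∩ HS U x S).eq_empty_or_nonempty with h0 | ⟨ω₀, hω₀⟩
    · rw [h0, measureReal_empty]
      exact mul_nonneg (Real.exp_pos _).le measureReal_nonneg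
    · have hxN : x < N := by omega
      have hc : c ≤ ∑ m ∈ S.image (N - ·), rhoW W m := by
        rw [← VU_eq U W hS hxN hω₀.2]
        exact hω₀.1.1.2
      have hSx := Finset.mem_powerset.1 hS
      have hR : S.image (N - ·) ⊆ Finset.Ioc x (x + (N - 1 - x)) := by
        intro m hm
        rw [Finset.mem_image] at hm
        obtain ⟨s, hs, rfl⟩ := hm
        have h1 := Finset.mem_Icc.1 (hSx hs)
        rw [Finset.mem_Ioc]
        omega
      have h1 := hM Ω μ ℱ A W δ hA hδ0 hδ1 (N - 1 - x) x (S.image (N - ·)) hR (HS U x S)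
        (HS_meas hU x S)
      have hsub2 : E ∩ HS U x S ⊆
          (HS U x S ∩ {ω | ∀ m ∈ S.image (N - ·), ω ∉ A m}) \ WV (VX μ ℱ A W δ) x (N - 1 - x) := by
        rintro ω ⟨⟨⟨h2, -⟩, h3⟩, h4⟩
        refine ⟨⟨h4, ?_⟩, h3⟩
        intro m hm
        rw [Finset.mem_image] at hm
        obtain ⟨s, hs, rfl⟩ := hm
        have h5 := Finset.mem_Icc.1 (hSx hs)
        exact h2 s h5.1 h5.2 ((h4 s (hSx hs)).2 hs)
      refine (measureReal_mono hsub2).trans (h1.trans ?_)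
      apply mul_le_mul_of_nonneg_right _ measureReal_nonneg
      apply Real.exp_le_exp.2
      rw [neg_le_neg_iff]
      exact mul_le_mul_of_nonneg_left hc (by linarith)
  calc μ.real E ≤ μ.real (⋃ S ∈ (Finset.Icc 1 x).powerset, E ∩ HS U x S) :=
        measureReal_mono hsub (measure_ne_top μ _)
    _ ≤ ∑ S ∈ (Finset.Icc 1 x).powerset, μ.real (E ∩ HS U x S) :=
        measureReal_biUnion_finset_le _ _
    _ ≤ ∑ S ∈ (Finset.Icc 1 x).powerset, Real.exp (-((1 - δ) * c)) * μ.real (HS U x S) :=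
        Finset.sum_le_sum hone
    _ = Real.exp (-((1 - δ) * c)) * ∑ S ∈ (Finset.Icc 1 x).powerset, μ.real (HS U x S) := by
        rw [Finset.mul_sum]
    _ ≤ Real.exp (-((1 - δ) * c)) * 1 :=
        mul_le_mul_of_nonneg_left (HS_sum hU x) (Real.exp_pos _).le
    _ = Real.exp (-((1 - δ) * c)) := mul_one _

end Pool.Agent.H95.PI.T.PUP
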