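import Pool.Agent.H95.PI.Stm

/-! # Team PI: stub PI-SIZE -/

set_option autoImplicit false

open MeasureTheory Filter Set
open scoped ENNReal Topology

namespace Pool.Agent.H95.PI.T.SIZE

/-- the size function, `t = log N` -/
noncomputable def GG (m : ℕ) (c t : ℝ) : ℝ := c * 2 ^ m * (t ^ 2 * Real.log t ^ m)

lemma GG_ge {m : ℕ} {c t : ℝ} (hc : 0 < c) (ht : 1 ≤ Real.log t) : c * t ^ 2 ≤ GG m c t := by
  unfold GG
  have h1 : (1 : ℝ) ≤ 2 ^ m := one_le_pow₀ (by norm_num)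
  have h2 : (1 : ℝ) ≤ Real.log t ^ m := one_le_pow₀ ht
  have h3 : t ^ 2 * 1 ≤ t ^ 2 * Real.log t ^ m := mul_le_mul_of_nonneg_left h2 (by positivity)
  have h4 : c * 1 ≤ c * 2 ^ m := mul_le_mul_of_nonneg_left h1 hc.le
  nlinarith [sq_nonneg t, mul_nonneg hc.le (sq_nonneg t), mul_le_mul h4 h3 (by positivity) (by positivity)]

lemma GG_tendsto (m : ℕ) {c : ℝ} (hc : 0 < c) : Tendsto (GG m c) atTop atTop := by
  have h1 : Tendsto (fun t : ℝ => c * t ^ 2) atTop atTop :=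
    (tendsto_pow_atTop (two_ne_zero)).const_mul_atTop hc
  refine tendsto_atTop_mono' atTop ?_ h1
  filter_upwards [Real.tendsto_log_atTop.eventually_ge_atTop 1] with t ht
  exact GG_ge hc ht

lemma log_floor (m : ℕ) {c : ℝ} (hc : 0 < c) :
    Tendsto (fun t : ℝ => Real.log (⌊GG m c t⌋₊ : ℝ) / Real.log t) atTop (𝓝 2) := by
  have hG := GG_tendsto m hc
  have h1 : Tendsto (fun t : ℝ => (⌊GG m c t⌋₊ : ℝ) / GG m c t) atTop (𝓝 1) :=
    (tendsto_nat_floor_div_atTop (R := ℝ)).comp hG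
  have h2 : Tendsto (fun t : ℝ => Real.log ((⌊GG m c t⌋₊ : ℝ) / GG m c t)) atTop (𝓝 0) := by
    have := (Real.continuousAt_log one_ne_zero).tendsto.comp h1
    rwa [Real.log_one] at this
  have hinv : Tendsto (fun t : ℝ => (Real.log t)⁻¹) atTop (𝓝 0) :=
    tendsto_inv_atTop_zero.comp Real.tendsto_log_atTop
  have hll : Tendsto (fun t : ℝ => Real.log (Real.log t) / Real.log t) atTop (𝓝 0) :=
    (Real.isLittleO_log_id_atTop.tendsto_div_nhds_zero).comp Real.tendsto_log_atTop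
  have h3 : Tendsto (fun t : ℝ => Real.log ((⌊GG m c t⌋₊ : ℝ) / GG m c t) * (Real.log t)⁻¹ +
      Real.log (c * 2 ^ m) * (Real.log t)⁻¹ + 2 + m * (Real.log (Real.log t) / Real.log t)) atTop
      (𝓝 (0 * 0 + Real.log (c * 2 ^ m) * 0 + 2 + m * 0)) :=
    (((h2.mul hinv).add (hinv.const_mul _)).add_const 2).add (hll.const_mul _)
  have h4 : (0 : ℝ) * 0 + Real.log (c * 2 ^ m) * 0 + 2 + m * 0 = 2 := by ring
  rw [h4] at h3
  refine h3.congr' ?_
  filter_upwards [hG.eventually_ge_atTop 1, Real.tendsto_log_atTop.eventually_ge_atTop 1,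
    eventually_gt_atTop 0] with t ht1 ht2 ht3
  have hfl : 0 < (⌊GG m c t⌋₊ : ℝ) := by exact_mod_cast Nat.floor_pos.2 ht1
  have hG0 : 0 < GG m c t := by linarith
  have hl0 : 0 < Real.log t := by linarith
  rw [Real.log_div hfl.ne' hG0.ne']
  have e1 : Real.log (GG m c t) = Real.log (c * 2 ^ m) + (2 * Real.log t + m * Real.log (Real.log t)) := by
    unfold GG
    rw [Real.log_mul (x := c * 2 ^ m) (by positivity) (by positivity),
      Real.log_mul (x := t ^ 2) (by positivity) (by positivity), Real.log_pow t 2,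
      Real.log_pow (Real.log t) m]
    push_cast
    ring
  rw [e1]
  field_simp
  ring

lemma f_floor {f : ℕ → ℝ} {m : ℕ} (hf : Tendsto (fun x : ℕ => f x * Real.log x ^ m / x) atTop (𝓝 1))
    {c : ℝ} (hc : 0 < c) : Tendsto (fun t : ℝ => f ⌊GG m c t⌋₊ / t ^ 2) atTop (𝓝 c) := by
  have hG := GG_tendsto m hc
  have hfl : Tendsto (fun t : ℝ => ⌊GG m c t⌋₊) atTop atTop := tendsto_nat_floor_atTop.comp hG
  have h1 : Tendsto (fun t : ℝ => (⌊GG m c t⌋₊ : ℝ) / GG m c t) atTop (𝓝 1) :=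
    (tendsto_nat_floor_div_atTop (R := ℝ)).comp hG
  have h2 := hf.comp hfl
  have h3 : Tendsto (fun t : ℝ => (Real.log (⌊GG m c t⌋₊ : ℝ) / Real.log t)⁻¹) atTop (𝓝 2⁻¹) :=
    (log_floor m hc).inv₀ two_ne_zero
  have h4 := (h2.mul h1).mul ((h3.pow m).const_mul (c * 2 ^ m))
  have e : (1 : ℝ) * 1 * (c * 2 ^ m * 2⁻¹ ^ m) = c := by
    rw [inv_pow]
    field_simp
  rw [e] at h4
  refine h4.congr' ?_
  filter_upwards [hG.eventually_ge_atTop 2, Real.tendsto_log_atTop.eventually_ge_atTop 1,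
    eventually_gt_atTop 0] with t ht1 ht2 ht3
  have hfl2 : 2 ≤ ⌊GG m c t⌋₊ := Nat.le_floor (by exact_mod_cast ht1)
  have hfl0 : (2 : ℝ) ≤ (⌊GG m c t⌋₊ : ℝ) := by exact_mod_cast hfl2
  have hG0 : 0 < GG m c t := by linarith
  have hl0 : 0 < Real.log t := by linarith
  have hlX : 0 < Real.log (⌊GG m c t⌋₊ : ℝ) := Real.log_pos (by linarith)
  simp only [Function.comp]
  obtain ⟨X, hX⟩ : ∃ X : ℝ, X = (⌊GG m c t⌋₊ : ℝ) := ⟨_, rfl⟩
  obtain ⟨y, hy⟩ : ∃ y : ℝ, y = f ⌊GG m c t⌋₊ := ⟨_, rfl⟩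
  rw [← hX] at hlX hfl0 ⊢
  rw [← hy]
  have hGG : GG m c t = c * 2 ^ m * (t ^ 2 * Real.log t ^ m) := rfl
  rw [inv_div, div_pow, hGG]
  have hX0 : X ≠ 0 := by linarith
  have e2 : Real.log X ^ m ≠ 0 := (pow_pos hlX m).ne'
  have e3 : Real.log t ^ m ≠ 0 := (pow_pos hl0 m).ne'
  field_simp

lemma GG_small (m : ℕ) {c : ℝ} (hc : 0 < c) :
    ∀ᶠ N : ℕ in atTop, 3 * GG m c (Real.log N) < N := by
  have h1 : (fun x : ℝ => Real.log x ^ (m + 2)) =o[atTop] (id : ℝ → ℝ) :=
    Real.isLittleO_pow_log_id_atTop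
  have h2 := h1.bound (show (0 : ℝ) < 1 / (6 * (c * 2 ^ m)) by positivity)
  have h3 := tendsto_natCast_atTop_atTop (R := ℝ) |>.eventually h2
  filter_upwards [h3, eventually_gt_atTop 0,
    (Real.tendsto_log_atTop.comp (Real.tendsto_log_atTop.comp (tendsto_natCast_atTop_atTop (R := ℝ)))).eventually_ge_atTop 1]
    with N hN hN0 hN1
  simp only [Function.comp] at hN1
  have hlN : 0 < Real.log N := by
    by_contra hcon
    push Not at hcon
    have h5 : (N : ℝ) ≤ 1 := by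
      by_contra h6
      push Not at h6
      linarith [Real.log_pos h6]
    have h7 : N = 1 := by
      have : (N : ℝ) ≤ ((1 : ℕ) : ℝ) := by simpa using h5
      have := Nat.cast_le.1 this
      omega
    rw [h7] at hN1
    simp at hN1
    linarith
  have h4 : Real.log (Real.log N) ≤ Real.log N := (Real.log_le_sub_one_of_pos hlN).trans (by linarith)
  have h5 : Real.log (Real.log N) ^ m ≤ Real.log N ^ m := pow_le_pow_left₀ (by linarith) h4 m
  rw [Real.norm_of_nonneg (by positivity), id, Real.norm_of_nonneg (by positivity)] at hN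
  have h6 : GG m c (Real.log N) ≤ c * 2 ^ m * Real.log N ^ (m + 2) := by
    unfold GG
    have : Real.log N ^ (m + 2) = Real.log N ^ 2 * Real.log N ^ m := by ring
    rw [this]
    gcongr
  have hNR : (0 : ℝ) < N := by exact_mod_cast hN0
  have h7 : c * 2 ^ m * Real.log N ^ (m + 2) ≤ c * 2 ^ m * (1 / (6 * (c * 2 ^ m)) * N) := by
    gcongr
  have h8 : c * 2 ^ m * (1 / (6 * (c * 2 ^ m)) * N) = N / 6 := by
    field_simp
  rw [h8] at h7
  linarith

theorem main : S_SIZE := by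
  intro f hmono m hf a b ha hab
  have hb : 0 < b := ha.trans hab
  obtain ⟨c, hc⟩ : ∃ c : ℝ, c = (a + b) / 2 := ⟨_, rfl⟩
  have hc0 : 0 < c := by rw [hc]; linarith
  have hlogN : Tendsto (fun N : ℕ => Real.log N) atTop atTop :=
    Real.tendsto_log_atTop.comp (tendsto_natCast_atTop_atTop (R := ℝ))
  have h1 := (f_floor hf ha).comp hlogN
  have h2 := (f_floor hf hc0).comp hlogN
  have e1 := h1.eventually (gt_mem_nhds hab)
  have e2 := h2.eventually (lt_mem_nhds (show a < c by rw [hc]; linarith))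
  filter_upwards [e1, e2, GG_small m ha, GG_small m hc0, hlogN.eventually_gt_atTop 0,
    (Real.tendsto_log_atTop.comp hlogN).eventually_ge_atTop 0, eventually_gt_atTop 0] with N k1 k2 k3 k4 k5 k6 k7
  simp only [Function.comp] at k1 k2 k6
  have hsq : 0 < Real.log N ^ 2 := by positivity
  refine ⟨fun s hs => ?_, ⌊GG m c (Real.log N)⌋₊, ?_, ?_, ?_⟩
  · have hs' : (s : ℝ) ≤ GG m a (Real.log N) := hs
    constructor
    · have : (3 : ℝ) * s ≤ N := by linarith
      exact_mod_cast this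
    · rw [div_lt_iff₀ hsq] at k1
      exact (hmono (Nat.le_floor hs')).trans k1.le
  · have h3 : (⌊GG m c (Real.log N)⌋₊ : ℝ) ≤ GG m c (Real.log N) := Nat.floor_le (by
      unfold GG; positivity)
    have h4 : 0 ≤ GG m c (Real.log N) := by unfold GG; positivity
    have h5 : (2 : ℝ) * (⌊GG m c (Real.log N)⌋₊ : ℝ) < N := by linarith
    exact_mod_cast h5
  · refine (Nat.floor_le (by unfold GG; positivity)).trans ?_
    unfold GG
    have : c ≤ b := by rw [hc]; linarith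
    gcongr
  · rw [lt_div_iff₀ hsq] at k2
    exact k2.le

end Pool.Agent.H95.PI.T.SIZE
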