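import Pool.Agent.H95.PI.Stm
import Pool.Agent.H95.P.N9_AD_Comp

/-! # PI-VLAW: the law of the weighted sums over the chosen integers with index in `T` (helper35) -/

set_option autoImplicit false

open MeasureTheory Filter Set
open scoped ENNReal Topology

namespace Pool.Agent.H95.PI.T.VLAW

open Pool.Agent.H95.PI Pool.Agent.R528.RM Pool.Agent.N9.AD Pool.Agent.N893.SM

theorem main : S_VLAW := by
  intro Ω m0 μ _ ℱ A T Q hA hT hQ hcop hd
  classical
  set W := ∏ p ∈ Q, p with hWdef
  have hW : 0 < W := Finset.prod_pos fun q hq => (hQ q hq).pos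
  have hprof := profile (μ := μ) hA Q hQ hcop hd
  have hcop' : ∀ n, ¬ Nat.Coprime n W → A n = ∅ := by
    intro n hn
    apply hcop
    rw [coprime_prod_iff Q hQ] at hn
    push Not at hn
    exact hn
  have hUs : ∀ n, MeasurableSet[ℱ n] (Us A T n) := Us_meas hA hT
  filter_upwards [index_law (μ := μ) hA hW hcop' hprof hT 2] with ω hω1 ε hε
  set c : ℝ := (W : ℝ) / Nat.totient W with hc
  have hφ : 0 < Nat.totient W := Nat.totient_pos.2 hW
  have hφR : (0 : ℝ) < Nat.totient W := by exact_mod_cast hφ
  have hφ1 : (1 : ℝ) ≤ Nat.totient W := by exact_mod_cast hφ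
  have hWR : (1 : ℝ) ≤ W := by exact_mod_cast hW
  have hc0 : 0 < c := by positivity
  have hcW : c ≤ W := by
    rw [hc, div_le_iff₀ hφR]
    nlinarith
  set η : ℝ := min 1 (ε / (4 * W ^ 2)) with hη
  have hη0 : 0 < η := by positivity
  have hη1 : η ≤ 1 := min_le_left _ _
  have hηε : 4 * (W : ℝ) ^ 2 * η ≤ ε := by
    have : η ≤ ε / (4 * W ^ 2) := min_le_right _ _
    rw [le_div_iff₀ (by positivity)] at this
    linarith
  obtain ⟨C1, hC10, hC1⟩ := hω1 η hη0
  have hlog : Tendsto (fun N : ℕ => Real.log (N : ℝ)) atTop atTop :=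
    Real.tendsto_log_atTop.comp tendsto_natCast_atTop_atTop
  refine ⟨4 * W ^ 2 * C1, by positivity, ?_⟩
  filter_upwards [hC1, log_half hc0 hη0, hlog.eventually_ge_atTop 1, eventually_ge_atTop W,
    eventually_ge_atTop 2] with N h1 hh h3 h4 h5 x hx
  have hlog0 : 0 < Real.log (N : ℝ) := by linarith
  have hx2 : x + 1 ≤ N ^ 2 := by nlinarith
  unfold VU rk
  set t : ℝ := ∑ s ∈ Finset.Icc 1 x, In (Us A T) s ω with ht
  have ht0 : 0 ≤ t := Finset.sum_nonneg fun v _ => In_nonneg _ _
  set S := ∑ s ∈ Finset.Icc 1 x, (if Nat.Coprime (N - s) W then In (Us A T) s ω else 0) with hS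
  set D := ∑ s ∈ Finset.Icc 1 x, In (Us A T) s ω * rhoW W (N - s) with hD
  set Nb : ℕ → ℝ := fun b => ∑ v ∈ Finset.Icc 1 x, (if v % W = b then In (Us A T) v ω else 0) with hNb
  have hSsum : S = ∑ b ∈ gcl W N, Nb b := by
    rw [hNb]
    simp only
    rw [Finset.sum_comm]
    apply Finset.sum_congr rfl
    intro v hv
    have hv' := Finset.mem_Icc.1 hv
    rw [Finset.sum_ite_eq]
    have h7 := gcl_iff (W := W) (N := N) (s := v) hW (by omega)
    by_cases h8 : Nat.Coprime v W
    · by_cases h9 : Nat.Coprime (N - v) W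
      · rw [if_pos h9, if_pos (h7.2 ⟨h8, h9⟩)]
      · rw [if_neg h9, if_neg (fun h => h9 (h7.1 h).2)]
    · have h9 : In (Us A T) v ω = 0 := by
        apply indicator_of_notMem
        intro h
        have := h.1
        rw [hcop' v h8] at this
        exact this
      rw [h9]
      split_ifs <;> rfl
  set g : ℝ := ((gcl W N).card : ℝ) with hg
  have hgW : g ≤ W := by
    rw [hg]
    have : (gcl W N).card ≤ W := by
      have := Finset.card_filter_le (Finset.range W) (fun b => Nat.Coprime b W ∧
        Nat.Coprime (N + (W - 1) * b) W)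
      rw [Finset.card_range] at this
      exact this
    exact_mod_cast this
  have hg0 : 0 ≤ g := Nat.cast_nonneg _
  have h7 : |Nat.totient W * S - g * t| ≤ g * (η * t + C1 * Real.log N) := by
    rw [hSsum, hg, Finset.mul_sum, ← nsmul_eq_mul, ← Finset.sum_const, ← Finset.sum_sub_distrib,
      ← nsmul_eq_mul, ← Finset.sum_const]
    refine (Finset.abs_sum_le_sum_abs _ _).trans (Finset.sum_le_sum fun b hb => ?_)
    have hb' := Finset.mem_filter.1 hb
    exact h1 x hx2 b (Finset.mem_range.1 hb'.1) hb'.2.1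
  have hsing := gcl_card Q hQ (N := N) h4
  rw [← hWdef, ← hc, ← hg] at hsing
  -- `S` against `g t / φ`
  have h8 : |S - g / Nat.totient W * t| ≤ W * (η * t + C1 * Real.log N) := by
    have e1 : S - g / Nat.totient W * t = (Nat.totient W * S - g * t) / Nat.totient W := by
      field_simp
    rw [e1, abs_div, abs_of_pos hφR, div_le_iff₀ hφR]
    refine h7.trans ?_
    have e2 : 0 ≤ η * t + C1 * Real.log N := by positivity
    calc g * (η * t + C1 * Real.log N) ≤ W * (η * t + C1 * Real.log N) :=
          mul_le_mul_of_nonneg_right hgW e2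
      _ ≤ W * (η * t + C1 * Real.log N) * Nat.totient W := le_mul_of_one_le_right (by positivity) hφ1
  have h9 : |c / Real.log N * S - singQ Q N * t / Real.log N| ≤
      W ^ 2 * (η * (t / Real.log N) + C1) := by
    have e1 : c / Real.log N * S - singQ Q N * t / Real.log N =
        c / Real.log N * (S - g / Nat.totient W * t) := by
      rw [← hsing]
      ring
    rw [e1, abs_mul, abs_of_pos (by positivity)]
    calc c / Real.log N * |S - g / Nat.totient W * t| ≤
          W / Real.log N * (W * (η * t + C1 * Real.log N)) := by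
          apply mul_le_mul _ h8 (abs_nonneg _) (by positivity)
          gcongr
      _ = W ^ 2 * (η * (t / Real.log N) + C1) := by
          field_simp
  set Z : ℝ := c / Real.log N * S with hZ
  have hS0 : 0 ≤ S := Finset.sum_nonneg fun s _ => by
    split_ifs
    · exact In_nonneg _ _
    · exact le_rfl
  have hZ0 : 0 ≤ Z := by positivity
  -- the weights
  have eD : D = ∑ s ∈ Finset.Icc 1 x, (if Nat.Coprime (N - s) W then In (Us A T) s ω * bb c (N - s) else 0) := by
    rw [hD]
    apply Finset.sum_congr rfl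
    intro s hs
    rw [rhoW_eq]
    split_ifs
    · rfl
    · rw [mul_zero]
  have hD1 : Z ≤ D := by
    rw [hZ, hS, eD, Finset.mul_sum]
    apply Finset.sum_le_sum
    intro s hs
    have hs' := Finset.mem_Icc.1 hs
    split_ifs
    · have := (hh (N - s) (by omega) (by omega)).1
      rw [mul_comm]
      exact mul_le_mul_of_nonneg_left this (In_nonneg _ _)
    · rw [mul_zero]
  have hD2 : D ≤ (1 + η) * Z := by
    rw [hZ, hS, eD, ← mul_assoc, Finset.mul_sum]
    apply Finset.sum_le_sum
    intro s hs
    have hs' := Finset.mem_Icc.1 hs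
    split_ifs
    · have := (hh (N - s) (by omega) (by omega)).2
      rw [mul_comm ((1 + η) * (c / Real.log N))]
      exact mul_le_mul_of_nonneg_left this (In_nonneg _ _)
    · rw [mul_zero]
  have hSt : S ≤ t := by
    apply Finset.sum_le_sum
    intro s _
    split_ifs
    · exact le_rfl
    · exact In_nonneg _ _
  have hZt : Z ≤ W * (t / Real.log N) := by
    calc Z = c / Real.log N * S := rfl
      _ ≤ W / Real.log N * t := by
          apply mul_le_mul _ hSt hS0 (by positivity)
          gcongr
      _ = W * (t / Real.log N) := by ring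
  have hτ0 : 0 ≤ t / Real.log N := by positivity
  have hηZ : η * Z ≤ W ^ 2 * η * (t / Real.log N) := by
    calc η * Z ≤ η * (W * (t / Real.log N)) := mul_le_mul_of_nonneg_left hZt hη0.le
      _ ≤ η * (W ^ 2 * (t / Real.log N)) := by
          apply mul_le_mul_of_nonneg_left _ hη0.le
          apply mul_le_mul_of_nonneg_right _ hτ0
          nlinarith
      _ = _ := by ring
  have hετ : 2 * (W : ℝ) ^ 2 * η * (t / Real.log N) ≤ ε * (t / Real.log N) := by
    apply mul_le_mul_of_nonneg_right _ hτ0
    have : 0 ≤ (W : ℝ) ^ 2 * η := by positivity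
    linarith
  have hlogC : (W : ℝ) ^ 2 * C1 ≤ 4 * W ^ 2 * C1 := by
    have h10 : 0 ≤ (W : ℝ) ^ 2 * C1 := by positivity
    linarith
  have a2 := abs_le.1 h9
  rw [abs_le]
  constructor <;> nlinarith [a2.1, a2.2]

end Pool.Agent.H95.PI.T.VLAW
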